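import Pool.Agent.D0H95.GL.Sp
import Pool.Agent.D0H95.BF.Stm7

/-!
Families of relative periodic solutions: the cut-off flow near a member, analyticity, propagation.
-/

set_option autoImplicit false

namespace Pool.Agent.D0H95.GL

open Pool.Agent.W821.TB Pool.Agent.D0H95.NB Pool.Agent.D0H95.BF Filter Topology Set

variable {m : Fin 3 → ℝ}

/-- A true solution agrees with the cut-off flow as long as the latter stays in the region. -/
theorem eq_flow (P : Pk m) {y : ℝ → Ph 3} (hy : IsSol m Set.univ y) {z : cm m}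
    (h0 : y 0 = (z : Ph 3)) {T : ℝ} (hS : ∀ t ∈ Icc 0 T, ((P.g t z : cm m) : Ph 3) ∈ P.S) :
    ∀ t ∈ Icc 0 T, y t = ((P.g t z : cm m) : Ph 3) := by
  have hgc : Continuous (fun t => ((P.g t z : cm m) : Ph 3)) :=
    (inc m).continuous.comp (P.hg.continuous z)
  have hcl : IsClosed ({t | y t = ((P.g t z : cm m) : Ph 3)} ∩ Icc 0 T) :=
    (isClosed_eq hy.continuous hgc).inter isClosed_Icc
  have key := hcl.Icc_subset_of_forall_mem_nhdsWithin (a := 0) (b := T)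
    (by change y 0 = ((P.g 0 z : cm m) : Ph 3); rw [P.hg.zero, h0]) ?_
  · exact fun t ht => key ht
  · rintro t ⟨ht, ht1⟩
    have htS : ((P.g t z : cm m) : Ph 3) ∈ P.S := hS t ⟨ht1.1, ht1.2.le⟩
    have hO : IsOpen (P.S : Set (Ph 3)) := isOpen_Rg P.R P.δ
    obtain ⟨K, s, hs, hL⟩ := (contDiffAt_vf (m := m) (hy.mem t).1).exists_lipschitzOnWith
    have ht' : y t = ((P.g t z : cm m) : Ph 3) := ht
    have h1 : ∀ᶠ u in 𝓝 t, y u ∈ s := hy.continuous.continuousAt hs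
    have h2 : ∀ᶠ u in 𝓝 t, ((P.g u z : cm m) : Ph 3) ∈ s :=
      hgc.continuousAt (by rw [← ht']; exact hs)
    have h3 : ∀ᶠ u in 𝓝 t, ((P.g u z : cm m) : Ph 3) ∈ P.S := hgc.continuousAt (hO.mem_nhds htS)
    have hf : ∀ᶠ u in 𝓝 t, HasDerivAt y ((fun (_ : ℝ) => vf m) u (y u)) u ∧
        y u ∈ (fun _ : ℝ => s) u := h1.mono fun u hu => ⟨hy.hasDerivAt u, hu⟩
    have hg : ∀ᶠ u in 𝓝 t, HasDerivAt (fun t => ((P.g t z : cm m) : Ph 3))
        ((fun (_ : ℝ) => vf m) u ((P.g u z : cm m) : Ph 3)) u ∧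
        ((P.g u z : cm m) : Ph 3) ∈ (fun _ : ℝ => s) u := by
      filter_upwards [h2, h3] with u hu hu3
      exact ⟨P.deriv_coe hu3, hu⟩
    have h4 := ODE_solution_unique_of_eventually (Eventually.of_forall fun _ => hL) hf hg ht'
    exact mem_nhdsWithin_of_mem_nhds h4

/-- Near a member of a family of relative periodic solutions the family is given by the cut-off flow. -/
theorem loc {T : ℝ} (hT : 0 < T) {Y : ℝ → ℝ → Ph 3} {c : ℝ → ℂ} {γ : ℝ → cm m} {J : Set ℝ}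
    (hJ : IsOpen J)
    (hY : ∀ s ∈ J, IsSol m Set.univ (Y s) ∧ ‖c s‖ = 1 ∧ (∀ t, Y s (t + T) = c s • Y s t) ∧
      Y s 0 = (γ s : Ph 3)) {s0 : ℝ} (hs0 : s0 ∈ J) (hγ : ContinuousAt γ s0) :
    ∃ P : Pk m, ∀ᶠ s in 𝓝 s0, s ∈ J ∧ (∀ t, ((P.g t (γ s) : cm m) : Ph 3) = Y s t) ∧
      (∀ t, ((P.g t (γ s) : cm m) : Ph 3) ∈ P.S) ∧ P.g T (γ s) = c s • γ s := by
  obtain ⟨h1, h2, h3, h4⟩ := hY s0 hs0
  obtain ⟨R, δ, hR0, hδ, hRg⟩ := exists_region h1 hT h2 h3
  obtain ⟨P, hPR, hPδ⟩ := exists_pk m hR0 hδ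
  have hxS : ∀ t, Y s0 t ∈ P.S := by
    intro t
    unfold Pk.S
    rw [hPR, hPδ]
    exact hRg t
  have hz : (⟨Y s0 0, sol_cm h1 0⟩ : cm m) = γ s0 := Subtype.ext h4
  have hg : ∀ t, ((P.g t (γ s0) : cm m) : Ph 3) = Y s0 t := by
    intro t
    rw [← hz]
    exact P.of_sol h1 hxS t
  have hS0 : ∀ t, ((P.g t (γ s0) : cm m) : Ph 3) ∈ P.S := fun t => by rw [hg]; exact hxS t
  have hnear := P.near (z0 := γ s0) (T := T) (fun t _ => hS0 t)
  refine ⟨P, ?_⟩
  filter_upwards [hγ.eventually hnear, hJ.mem_nhds hs0] with s hs hsJ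
  obtain ⟨k1, k2, k3, k4⟩ := hY s hsJ
  have e1 := eq_flow P k1 k4 hs
  have e2 : P.g T (γ s) = c s • γ s := by
    apply Subtype.ext
    rw [← e1 T ⟨hT.le, le_rfl⟩]
    have := k3 0
    rw [zero_add] at this
    rw [this, k4]
    rfl
  have e3 : ∀ t, ((P.g t (γ s) : cm m) : Ph 3) ∈ P.S := fun t => P.per_mem k2 hT e2 hs t
  have e4 : (fun t => ((P.g t (γ s) : cm m) : Ph 3)) = Y s :=
    sol_unique (P.sol_of e3) k1 (t₀ := 0) (by simp only [P.hg.zero]; exact k4.symm)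
  exact ⟨hsJ, fun t => congrFun e4 t, e3, e2⟩

/-- Propagation of a property which is closed in the strong sense. -/
theorem ana_prop {a b s0 : ℝ} (h0 : s0 ∈ Ioo a b) {Q : ℝ → Prop} (hQ0 : ∀ᶠ s in 𝓝 s0, Q s)
    (hcl : ∀ s ∈ Ioo a b, (∃ᶠ s' in 𝓝[≠] s, Q s') → ∀ᶠ s' in 𝓝 s, Q s') :
    ∀ s ∈ Ioo a b, ∀ᶠ s' in 𝓝 s, Q s' := by
  have hu : IsOpen {s | ∀ᶠ s' in 𝓝 s, Q s'} := isOpen_setOf_eventually_nhds
  have hsub := (isPreconnected_Ioo (a := a) (b := b)).subset_of_closure_inter_subset hu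
    ⟨s0, h0, hQ0⟩ ?_
  · exact fun s hs => hsub hs
  · rintro s ⟨hs1, hs2⟩
    refine hcl s hs2 ?_
    intro hne
    rw [mem_closure_iff_nhds] at hs1
    rw [eventually_nhdsWithin_iff] at hne
    obtain ⟨r, hr1, hr2⟩ := hs1 _ hne.eventually_nhds
    have hr1' : ∀ᶠ x in 𝓝 r, x ∈ ({s}ᶜ : Set ℝ) → ¬ Q x := hr1
    have hr2' : ∀ᶠ x in 𝓝 r, Q x := hr2
    have h3 : ∀ᶠ x in 𝓝 r, x = s := by
      filter_upwards [hr1', hr2'] with x hx1 hx2
      by_contra hne'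
      exact hx1 hne' hx2
    have h4 : r = s := h3.self_of_nhds
    rw [h4] at h3
    have h5 : ∀ᶠ x in 𝓝[≠] s, x = s := h3.filter_mono nhdsWithin_le_nhds
    have h6 : ∀ᶠ x in 𝓝[≠] s, x ≠ s := self_mem_nhdsWithin
    obtain ⟨x, hx1, hx2⟩ := (h5.and h6).exists
    exact hx2 hx1

/-- Zeros of analytic functions: frequently zero implies zero in a neighbourhood. -/
theorem freq_zero {E : Type} [NormedAddCommGroup E] [NormedSpace ℝ E] {F : ℝ → E} {s : ℝ}
    (hF : AnalyticAt ℝ F s) (h : ∃ᶠ s' in 𝓝[≠] s, F s' = 0) : ∀ᶠ s' in 𝓝 s, F s' = 0 := by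
  rcases hF.eventually_eq_zero_or_eventually_ne_zero with h1 | h1
  · exact h1
  · exact absurd h1 h

/-- The cut-off flow is analytic along orbits in the region. -/
theorem an_flow (hNEM : S_NEM) (hAFL : S_NEM → S_AFL) (hXAN : S_XAN) (P : Pk m) {T : ℝ} (hT : 0 ≤ T)
    {z : cm m} (hS : ∀ t, ((P.g t z : cm m) : Ph 3) ∈ P.S) : AnalyticAt ℝ (P.g T) z :=
  hAFL hNEM (cm m) P.X P.K P.g P.hK P.hg T z hT fun t _ => hXAN 3 m P.R P.δ P.hR P.hδ _ (hS t)

/-- Kernel vectors of `M² - 2 cos α M + 1`. -/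
theorem an_detE {E : Type} [NormedAddCommGroup E] [NormedSpace ℝ E] [FiniteDimensional ℝ E]
    {K : ℝ → (E →L[ℝ] E)} {s : ℝ} (hK : AnalyticAt ℝ K s) :
    AnalyticAt ℝ (fun e => LinearMap.det ((K e : E →L[ℝ] E) : E →ₗ[ℝ] E)) s := by
  set bs := Module.finBasis ℝ E with hbs
  have h1 : (fun e => LinearMap.det ((K e : E →L[ℝ] E) : E →ₗ[ℝ] E)) =
      fun e => ∑ σ : Equiv.Perm (Fin (Module.finrank ℝ E)), (Equiv.Perm.sign σ : ℝ) *
        ∏ i, (bs.coord (σ i)) (K e (bs i)) := by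
    funext e
    rw [← LinearMap.det_toMatrix bs, Matrix.det_apply]
    refine Finset.sum_congr rfl fun σ _ => ?_
    have : ((Equiv.Perm.sign σ : ℤˣ) : ℝ) = (((Equiv.Perm.sign σ : ℤˣ) : ℤ) : ℝ) := rfl
    rw [this, Units.smul_def, zsmul_eq_mul]
    congr 1
    refine Finset.prod_congr rfl fun i _ => ?_
    rw [LinearMap.toMatrix_apply]
    rfl
  rw [h1]
  refine Finset.analyticAt_fun_sum _ fun σ _ => ?_
  refine analyticAt_const.mul ?_
  refine Finset.analyticAt_fun_prod _ fun i _ => ?_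
  have h2 : (fun e => (bs.coord (σ i)) (K e (bs i))) = fun e =>
      ((LinearMap.toContinuousLinearMap (bs.coord (σ i))).comp
        (ContinuousLinearMap.apply ℝ E (bs i))) (K e) := by
    funext e
    rfl
  rw [h2]
  exact (ContinuousLinearMap.analyticAt _ _).comp hK

/-- The quadratic polynomial of a pair. -/
noncomputable def KE {E : Type} [NormedAddCommGroup E] [NormedSpace ℝ E] (M : E →L[ℝ] E) (c : ℝ) :
    E →L[ℝ] E := M * M - (2 * c) • M + 1

theorem KE_apply {E : Type} [NormedAddCommGroup E] [NormedSpace ℝ E] (M : E →L[ℝ] E) (c : ℝ)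
    (v : E) : KE M c v = M (M v) - (2 * c) • M v + v := rfl

theorem pr_ker {E : Type} [NormedAddCommGroup E] [NormedSpace ℝ E] [FiniteDimensional ℝ E]
    {M : E →L[ℝ] E} {α : ℝ} {q s : E} (h0 : q ≠ 0)
    (h1 : M q = Real.cos α • q - Real.sin α • s) (h2 : M s = Real.sin α • q + Real.cos α • s) :
    LinearMap.det ((KE M (Real.cos α) : E →L[ℝ] E) : E →ₗ[ℝ] E) = 0 := by
  have h3 : KE M (Real.cos α) q = 0 := by
    rw [KE_apply, h1, map_sub, map_smul, map_smul, h1, h2]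
    have e : Real.cos α • (Real.cos α • q - Real.sin α • s) -
          Real.sin α • (Real.sin α • q + Real.cos α • s) -
          (2 * Real.cos α) • (Real.cos α • q - Real.sin α • s) + q =
          (1 - (Real.sin α ^ 2 + Real.cos α ^ 2)) • q := by module
    rw [e, Real.sin_sq_add_cos_sq, sub_self, zero_smul]
  by_contra hne
  have k1 : IsUnit (LinearMap.det ((KE M (Real.cos α) : E →L[ℝ] E) : E →ₗ[ℝ] E)) :=
    isUnit_iff_ne_zero.mpr hne
  have k2 := LinearMap.ker_eq_bot.mp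
    ((LinearMap.isUnit_iff_ker_eq_bot _).mp ((LinearMap.isUnit_iff_isUnit_det _).mpr k1))
  exact h0 (k2 (by rw [map_zero]; exact h3))

theorem det_pr {E : Type} [NormedAddCommGroup E] [NormedSpace ℝ E] [FiniteDimensional ℝ E]
    {M : E →L[ℝ] E} {α : ℝ} (hs : Real.sin α ≠ 0)
    (hd : LinearMap.det ((KE M (Real.cos α) : E →L[ℝ] E) : E →ₗ[ℝ] E) = 0) :
    ∃ q s : E, q ≠ 0 ∧ M q = Real.cos α • q - Real.sin α • s ∧
      M s = Real.sin α • q + Real.cos α • s := by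
  have h4 := LinearMap.bot_lt_ker_of_det_eq_zero hd
  obtain ⟨v, hv, hv0⟩ := (Submodule.ne_bot_iff _).mp h4.ne'
  have h : KE M (Real.cos α) v = 0 := hv
  rw [KE_apply] at h
  set C := Real.cos α with hC
  set S := Real.sin α with hS
  have hCS : S ^ 2 + C ^ 2 = 1 := Real.sin_sq_add_cos_sq α
  have h1 : M (M v) = (2 * C) • M v - v := by
    have : M (M v) - (2 * C) • M v + v - v = 0 - v := by rw [h]
    rw [add_sub_cancel_right, zero_sub] at this
    rw [sub_eq_iff_eq_add] at this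
    rw [this]
    abel
  refine ⟨v, S⁻¹ • (C • v - M v), hv0, ?_, ?_⟩
  · rw [smul_smul, mul_inv_cancel₀ hs, one_smul]
    abel
  · rw [map_smul, map_sub, map_smul, h1]
    have e1 : S • v = S⁻¹ • ((S ^ 2) • v) := by
      rw [smul_smul]
      congr 1
      field_simp
    have e2 : S ^ 2 = 1 - C ^ 2 := by linarith
    rw [e1, e2, smul_comm C S⁻¹, ← smul_add]
    congr 1
    module

end Pool.Agent.D0H95.GL
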