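import Pool.Agent.D0H95.GL.Scl

/-!
Analytic families with variable period; the final theorem.
-/

set_option autoImplicit false

namespace Pool.Agent.D0H95.GL

open Pool.Agent.W821.TB Pool.Agent.D0H95.NB Pool.Agent.D0H95.BF Filter Topology Set

variable {m : Fin 3 → ℝ}

theorem glob_fixed (hBU : S_BU) (hNT : S_NT) (hEIG : S_EIG) (hNEM : S_NEM) (hAFL : S_NEM → S_AFL)
    (hXAN : S_XAN) (hm : ∀ a, 0 < m a) {K : ℕ} {U : Set (Ph 3)} (hlk : Lk m K U)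
    {a b T : ℝ} {Z : ℝ → ℝ → Ph 3} {d : ℝ → ℂ} {γ : ℝ → cm m}
    (h : Fam m a b T Z d γ) (hT : 0 < T) {s0 : ℝ} (hs0 : s0 ∈ Ioo a b) (hU0 : Z s0 0 ∈ U)
    (hre : ¬ IsRelEq (Z s0)) {s1 : ℝ} (hs1 : s1 ∈ Ioo a b)
    (hL : energy m (Z s1 0) = energy m (Z s0 0) → ang m (Z s1 0) ≠ ang m (Z s0 0))
    {α1 α2 : ℝ} (hsin1 : Real.sin α1 ≠ 0) (hsin2 : Real.sin α2 ≠ 0)
    (hcc : Real.cos α1 ≠ Real.cos α2)
    (h1 : Pair m (Z s0) T (d s0) α1) (h2 : Pair m (Z s0) T (d s0) α2) {s : ℝ} (hs : s ∈ Ioo a b) :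
    d s = d s0 ∧ energy m (Z s 0) = energy m (Z s0 0) ∧ Pair m (Z s) T (d s0) α1 ∧
      Pair m (Z s) T (d s0) α2 := by
  have hc0 : ∀ s ∈ Ioo a b, d s = d s0 := fun s hs => h.c_all hNEM hAFL hXAN hT hlk hs0 hU0 hs
  have hZ : ∀ s ∈ Ioo a b, Z s 0 = (γ s : Ph 3) := fun s hs => (h.hY s hs).2.2.2
  have hE : ∀ s ∈ Ioo a b, energy m (Z s 0) = energy m (Z s0 0) := by
    intro s hs
    rw [hZ s hs, hZ s0 hs0]
    exact h.energy_all hT hc0 hs hs0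
  have hL' : ang m (γ s1 : Ph 3) ≠ ang m (γ s0 : Ph 3) := by
    rw [← hZ s1 hs1, ← hZ s0 hs0]
    exact hL (hE s1 hs1)
  have hD := h.ang_ne hs1 hs0 hL' hs0
  have hnear := h.pairs_near hBU hNT hEIG hm hT hlk hs0 hU0 hre hc0 hD hsin1 hsin2 hcc h1 h2
  exact ⟨hc0 s hs, hE s hs,
    h.pair_all hNEM hAFL hXAN hm hT hc0 hs0 hsin1 (hnear.mono fun s hs => hs.1) hs,
    h.pair_all hNEM hAFL hXAN hm hT hc0 hs0 hsin2 (hnear.mono fun s hs => hs.2) hs⟩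

theorem glob_var (hBU : S_BU) (hNT : S_NT) (hEIG : S_EIG) (hNEM : S_NEM) (hAFL : S_NEM → S_AFL)
    (hXAN : S_XAN) (hm : ∀ a, 0 < m a) {K : ℕ} {U : Set (Ph 3)} (hlk : Lk m K U)
    {a b : ℝ} {Y : ℝ → ℝ → Ph 3} {τ : ℝ → ℝ} {d : ℝ → ℂ}
    (hYa : AnalyticOnNhd ℝ (fun s => Y s 0) (Ioo a b)) (hτa : AnalyticOnNhd ℝ τ (Ioo a b))
    (hY : ∀ s ∈ Ioo a b, IsSol m Set.univ (Y s) ∧ 0 < τ s ∧ ‖d s‖ = 1 ∧
      ∀ t, Y s (t + τ s) = d s • Y s t)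
    {s0 : ℝ} (hs0 : s0 ∈ Ioo a b) (hU0 : Y s0 0 ∈ U) (hre : ¬ IsRelEq (Y s0))
    {s1 : ℝ} (hs1 : s1 ∈ Ioo a b)
    (hL : energy m (Y s1 0) * ang m (Y s1 0) ^ 2 ≠ energy m (Y s0 0) * ang m (Y s0 0) ^ 2)
    {α1 α2 : ℝ} (hsin1 : Real.sin α1 ≠ 0) (hsin2 : Real.sin α2 ≠ 0)
    (hcc : Real.cos α1 ≠ Real.cos α2)
    (h1 : Pair m (Y s0) (τ s0) (d s0) α1) (h2 : Pair m (Y s0) (τ s0) (d s0) α2)
    {s : ℝ} (hs : s ∈ Ioo a b) :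
    d s = d s0 ∧ energy m (Y s 0) ^ 3 * τ s ^ 2 = energy m (Y s0 0) ^ 3 * τ s0 ^ 2 ∧
      Pair m (Y s) (τ s) (d s0) α1 ∧ Pair m (Y s) (τ s) (d s0) α2 := by
  have hT : 0 < τ s0 := (hY s0 hs0).2.1
  obtain ⟨T, hTe⟩ : ∃ T, T = τ s0 := ⟨_, rfl⟩
  rw [← hTe] at hT h1 h2 ⊢
  obtain ⟨r, hr⟩ : ∃ r : ℝ → ℝ, r = fun s => Real.exp ((1 / 3 : ℝ) * Real.log (T⁻¹ * τ s)) :=
    ⟨_, rfl⟩
  have hr0 : ∀ s, 0 < r s := by
    intro s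
    rw [hr]
    exact Real.exp_pos _
  have hpos : ∀ s ∈ Ioo a b, 0 < T⁻¹ * τ s := fun s hs => mul_pos (inv_pos.mpr hT) (hY s hs).2.1
  have hr3 : ∀ s ∈ Ioo a b, r s ^ 3 * T = τ s := by
    intro s hs
    rw [hr]
    simp only
    rw [← Real.exp_nat_mul, ← mul_assoc]
    norm_num
    rw [Real.exp_log (hpos s hs)]
    field_simp
  have hr1 : r s0 = 1 := by
    rw [hr]
    simp only
    rw [← hTe, inv_mul_cancel₀ hT.ne', Real.log_one, mul_zero, Real.exp_zero]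
  have hra : ∀ s ∈ Ioo a b, AnalyticAt ℝ r s := by
    intro s hs
    rw [hr]
    have h3 : AnalyticAt ℝ (fun s => T⁻¹ * τ s) s := analyticAt_const.mul (hτa s hs)
    have h4 : AnalyticAt ℝ (fun s => Real.log (T⁻¹ * τ s)) s :=
      AnalyticAt.comp (g := Real.log) (f := fun s => T⁻¹ * τ s) (analyticAt_log (hpos s hs)) h3
    exact (analyticAt_const.mul h4).rexp'
  obtain ⟨Z, hZ⟩ : ∃ Z : ℝ → ℝ → Ph 3, Z = fun s => Sc (r s) (Y s) := ⟨_, rfl⟩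
  have hZs : ∀ s, Z s = Sc (r s) (Y s) := fun s => by rw [hZ]
  have hZ0 : ∀ s, Z s 0 = Sr (r s) (Y s 0) := by
    intro s
    rw [hZs]
    unfold Sc
    rw [mul_zero]
  have hZs0 : Z s0 = Y s0 := by rw [hZs, hr1, Sc_one]
  have hZsol : ∀ s ∈ Ioo a b, IsSol m Set.univ (Z s) := by
    intro s hs
    rw [hZs]
    exact Sc_sol (hr0 s) (hY s hs).1
  have hF : Fam m a b T Z d (fun s => pr m (Z s 0)) := by
    refine ⟨fun s hs => ⟨hZsol s hs, (hY s hs).2.2.1, ?_, ?_⟩, fun s hs => ?_⟩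
    · rw [hZs]
      exact Sc_per (hY s hs).2.2.2 (hr3 s hs)
    · have := pr_apply (⟨Z s 0, sol_cm (hZsol s hs) 0⟩ : cm m)
      simp only at this
      rw [this]
    · have h3 : AnalyticAt ℝ (fun s => Z s 0) s := by
        have h4 : (fun s => Z s 0) = fun s => (((r s ^ 2)⁻¹ • (Y s 0).1, r s • (Y s 0).2) : Ph 3) := by
          funext s
          rw [hZ0, Sr_apply]
        rw [h4]
        have h5 : AnalyticAt ℝ (fun s => (Y s 0).1) s :=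
          ((ContinuousLinearMap.fst ℝ (Fin 3 → ℂ) (Fin 3 → ℂ)).analyticAt _).comp (hYa s hs)
        have h6 : AnalyticAt ℝ (fun s => (Y s 0).2) s :=
          ((ContinuousLinearMap.snd ℝ (Fin 3 → ℂ) (Fin 3 → ℂ)).analyticAt _).comp (hYa s hs)
        have h7 : AnalyticAt ℝ (fun s => (r s ^ 2)⁻¹) s :=
          AnalyticAt.inv (f := fun s => r s ^ 2) ((hra s hs).pow 2) (pow_ne_zero 2 (hr0 s).ne')
        exact (h7.smul h5).prod ((hra s hs).smul h6)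
      exact ((pr m).analyticAt _).comp h3
  have hEZ : ∀ s, energy m (Z s 0) = r s ^ 2 * energy m (Y s 0) := fun s => by
    rw [hZ0, energy_Sr (hr0 s)]
  have hAZ : ∀ s, ang m (Z s 0) = (r s)⁻¹ * ang m (Y s 0) := fun s => by
    rw [hZ0, ang_Sr (hr0 s)]
  have key : ∀ s, energy m (Z s 0) * ang m (Z s 0) ^ 2 = energy m (Y s 0) * ang m (Y s 0) ^ 2 := by
    intro s
    rw [hEZ, hAZ]
    have := (hr0 s).ne'
    field_simp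
  obtain ⟨k1, k2, k3, k4⟩ := glob_fixed hBU hNT hEIG hNEM hAFL hXAN hm hlk hF hT hs0
    (by rw [hZs0]; exact hU0) (by rw [hZs0]; exact hre) hs1
    (fun hE hA => hL (by rw [← key, ← key, hE, hA])) hsin1 hsin2 hcc
    (by rw [hZs0]; exact h1) (by rw [hZs0]; exact h2) hs
  have hback : ∀ α, Pair m (Z s) T (d s0) α → Pair m (Y s) (τ s) (d s0) α := by
    intro α hα
    have h3 := Sc_pair (r := (r s)⁻¹) (inv_pos.mpr (hr0 s)) (hZsol s hs) (τ := T) (T := τ s)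
      (by rw [← hr3 s hs, ← mul_assoc, ← mul_pow, inv_mul_cancel₀ (hr0 s).ne', one_pow, one_mul]) hα
    rw [hZs, Sc_inv (hr0 s)] at h3
    exact h3
  refine ⟨k1, ?_, hback α1 k3, hback α2 k4⟩
  rw [hEZ, hEZ, hr1] at k2
  have h5 : energy m (Y s0 0) = r s ^ 2 * energy m (Y s 0) := by linarith
  rw [h5, ← hr3 s hs]
  ring

/-- **Rigidity.** -/
theorem rigid (hBU : S_BU) (hNT : S_NT) (hEIG : S_EIG) (hNEM : S_NEM) (hAFL : S_NEM → S_AFL)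
    (hXAN : S_XAN) (hm : ∀ a, 0 < m a) {x : ℝ → Ph 3} (hx : IsSol m Set.univ x)
    (hne : ¬ IsRelEq x) (hst : LyapunovStable m (Set.range x)) {T₀ : ℝ} (hT₀ : 0 < T₀) {c₀ : ℂ}
    (hc₀ : ‖c₀‖ = 1) (hper₀ : ∀ t, x (t + T₀) = c₀ • x t) :
    ∃ U : Set (Ph 3), IsOpen U ∧ Set.range x ⊆ U ∧ ∀ (y : ℝ → Ph 3) (T : ℝ) (c : ℂ) (α1 α2 : ℝ),
      IsSol m Set.univ y → 0 < T → ‖c‖ = 1 → (∀ t, y (t + T) = c • y t) → y 0 ∈ U →
      ¬ IsRelEq y → Pair m y T c α1 → Pair m y T c α2 → Real.sin α1 ≠ 0 → Real.sin α2 ≠ 0 →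
      Real.cos α1 ≠ Real.cos α2 →
      (∃ ε : ℝ, 0 < ε ∧ ∃ Y : ℝ → ℝ → Ph 3, Y (ang m (y 0)) = y ∧
        ContDiffOn ℝ 1 (fun l => Y l 0) (Metric.ball (ang m (y 0)) ε) ∧
        ∀ l ∈ Metric.ball (ang m (y 0)) ε, IsSol m Set.univ (Y l) ∧
          (∀ t, Y l (t + T) = c • Y l t) ∧ energy m (Y l 0) = energy m (y 0) ∧
          ang m (Y l 0) = l ∧ Pair m (Y l) T c α1 ∧ Pair m (Y l) T c α2) ∧
      ∀ (a b : ℝ) (Y : ℝ → ℝ → Ph 3) (τ : ℝ → ℝ) (d : ℝ → ℂ),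
        AnalyticOnNhd ℝ (fun s => Y s 0) (Ioo a b) → AnalyticOnNhd ℝ τ (Ioo a b) →
        (∀ s ∈ Ioo a b, IsSol m Set.univ (Y s) ∧ 0 < τ s ∧ ‖d s‖ = 1 ∧
          ∀ t, Y s (t + τ s) = d s • Y s t) →
        ∀ s0 ∈ Ioo a b, Y s0 = y → τ s0 = T → ∀ s1 ∈ Ioo a b,
        energy m (Y s1 0) * ang m (Y s1 0) ^ 2 ≠ energy m (y 0) * ang m (y 0) ^ 2 →
        ∀ s ∈ Ioo a b, d s = c ∧ energy m (Y s 0) ^ 3 * τ s ^ 2 = energy m (y 0) ^ 3 * T ^ 2 ∧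
          Pair m (Y s) (τ s) c α1 ∧ Pair m (Y s) (τ s) c α2 := by
  obtain ⟨K, U, hlk, hxU⟩ := lk_stable (by norm_num) hm hx hne hst hT₀ hc₀ hper₀
  refine ⟨U, hlk.2.1, hxU, ?_⟩
  intro y T c α1 α2 hy hT hc hper hyU hre h1 h2 hs1 hs2 hcc
  refine ⟨specL hBU hNT hEIG hm hlk hy hre hyU hT hc hper hs1 hs2 hcc h1 h2, ?_⟩
  intro a b Y τ d hYa hτa hY s0 hs0 hYs0 hτs0 s1 hs1' hL s hs
  have hd : d s0 = c := by
    have e1 := (hY s0 hs0).2.2.2 0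
    rw [hYs0, hτs0, hper 0] at e1
    obtain ⟨i, hi⟩ := exists_ne_zero (by norm_num) (hy.mem 0)
    have e2 : c * (y 0).1 i = d s0 * (y 0).1 i := congrArg (fun z : Ph 3 => z.1 i) e1
    exact (mul_right_cancel₀ hi e2).symm
  have key := glob_var hBU hNT hEIG hNEM hAFL hXAN hm hlk hYa hτa hY hs0 (by rw [hYs0]; exact hyU)
    (by rw [hYs0]; exact hre) hs1' (by rw [hYs0]; exact hL) hs1 hs2 hcc
    (by rw [hYs0, hτs0, hd]; exact h1) (by rw [hYs0, hτs0, hd]; exact h2) hs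
  rw [hYs0, hτs0, hd] at key
  exact key

end Pool.Agent.D0H95.GL
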