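import Pool.Agent.D0H95.GL.Fam

/-!
Analytic families of relative periodic solutions through the neighbourhood of a stable orbit: the
rotation, the energy and the elliptic multipliers are constant on the whole family.
-/

set_option autoImplicit false

namespace Pool.Agent.D0H95.GL

open Pool.Agent.W821.TB Pool.Agent.D0H95.NB Pool.Agent.D0H95.BF Filter Topology Set

variable {m : Fin 3 → ℝ}

/-- An analytic family of relative periodic solutions with the same `T`. -/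
structure Fam (m : Fin 3 → ℝ) (a b T : ℝ) (Y : ℝ → ℝ → Ph 3) (c : ℝ → ℂ) (γ : ℝ → cm m) : Prop where
  hY : ∀ s ∈ Ioo a b, IsSol m Set.univ (Y s) ∧ ‖c s‖ = 1 ∧ (∀ t, Y s (t + T) = c s • Y s t) ∧
      Y s 0 = (γ s : Ph 3)
  hγ : ∀ s ∈ Ioo a b, AnalyticAt ℝ γ s

theorem ne_of_sol {y : ℝ → Ph 3} (hy : IsSol m Set.univ y) {z : cm m} (h : y 0 = (z : Ph 3)) :
    z ≠ 0 := by
  rintro rfl
  obtain ⟨a, ha⟩ := exists_ne_zero (by norm_num) (hy.mem 0)
  rw [h] at ha
  exact ha rfl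

theorem roots_finite {K : ℕ} (hK : 1 ≤ K) : {d : ℂ | d ^ (2 * K) = 1}.Finite := by
  have h0 : (Polynomial.X ^ (2 * K) - Polynomial.C (1:ℂ)) ≠ 0 :=
    Polynomial.X_pow_sub_C_ne_zero (by omega) 1
  refine (Polynomial.X ^ (2 * K) - Polynomial.C (1:ℂ)).roots.toFinset.finite_toSet.subset ?_
  intro d hd
  have hd' : d ^ (2 * K) = 1 := hd
  simp only [Finset.mem_coe, Multiset.mem_toFinset, Polynomial.mem_roots h0, Polynomial.IsRoot,
    Polynomial.eval_sub, Polynomial.eval_pow, Polynomial.eval_X, Polynomial.eval_C]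
  rw [hd', sub_self]

section

variable {a b T : ℝ} {Y : ℝ → ℝ → Ph 3} {c : ℝ → ℂ} {γ : ℝ → cm m}

theorem Fam.loc (h : Fam m a b T Y c γ) (hT : 0 < T) {s0 : ℝ} (hs0 : s0 ∈ Ioo a b) :
    ∃ P : Pk m, ∀ᶠ s in 𝓝 s0, s ∈ Ioo a b ∧ (∀ t, ((P.g t (γ s) : cm m) : Ph 3) = Y s t) ∧
      (∀ t, ((P.g t (γ s) : cm m) : Ph 3) ∈ P.S) ∧ P.g T (γ s) = c s • γ s :=
  GL.loc hT isOpen_Ioo h.hY hs0 (h.hγ s0 hs0).continuousAt

/-- The rotation is locally constant where the rotations are locked. -/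
theorem Fam.c_loc (h : Fam m a b T Y c γ) (hT : 0 < T) {K : ℕ} {U : Set (Ph 3)} (hlk : Lk m K U)
    {s0 : ℝ} (hs0 : s0 ∈ Ioo a b) (hU0 : Y s0 0 ∈ U) : ∀ᶠ s in 𝓝 s0, c s = c s0 := by
  obtain ⟨P, hP⟩ := h.loc hT hs0
  obtain ⟨hK, hUo, hU⟩ := hlk
  have hγc : ContinuousAt (fun s => ((γ s : cm m) : Ph 3)) s0 :=
    (inc m).continuous.continuousAt.comp (h.hγ s0 hs0).continuousAt
  have hgc : ContinuousAt (fun s => ((P.g T (γ s) : cm m) : Ph 3)) s0 := by
    have h1 : Continuous (P.g T) := (P.cd_t T).continuous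
    exact (inc m).continuous.continuousAt.comp
      (h1.continuousAt.comp (h.hγ s0 hs0).continuousAt)
  obtain ⟨i, hi⟩ := exists_ne_zero (by norm_num) ((h.hY s0 hs0).1.mem 0)
  rw [(h.hY s0 hs0).2.2.2] at hi
  have e1 : ContinuousAt (fun s => ((γ s : cm m) : Ph 3).1 i) s0 :=
    ((continuous_apply i).comp continuous_fst).continuousAt.comp hγc
  have e2 : ContinuousAt (fun s => ((P.g T (γ s) : cm m) : Ph 3).1 i) s0 :=
    ((continuous_apply i).comp continuous_fst).continuousAt.comp hgc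
  have e3 := e2.div e1 hi
  have e4 : ∀ᶠ s in 𝓝 s0, ((γ s : cm m) : Ph 3).1 i ≠ 0 := e1.eventually_ne hi
  have e5 : ∀ᶠ s in 𝓝 s0, ((P.g T (γ s) : cm m) : Ph 3).1 i / ((γ s : cm m) : Ph 3).1 i = c s := by
    filter_upwards [hP, e4] with s hs1 hs2
    rw [hs1.2.2.2]
    change c s * ((γ s : cm m) : Ph 3).1 i / ((γ s : cm m) : Ph 3).1 i = c s
    rw [mul_div_assoc, div_self hs2, mul_one]
  have e6 : Tendsto c (𝓝 s0) (𝓝 (c s0)) := by
    have e7 := e3.tendsto.congr' e5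
    have e8 : ((P.g T (γ s0) : cm m) : Ph 3).1 i / ((γ s0 : cm m) : Ph 3).1 i = c s0 :=
      e5.self_of_nhds
    simp only [Pi.div_apply] at e7
    rwa [e8] at e7
  have hUe : ∀ᶠ s in 𝓝 s0, ((γ s : cm m) : Ph 3) ∈ U := by
    refine hγc.eventually (hUo.mem_nhds ?_)
    change ((γ s0 : cm m) : Ph 3) ∈ U
    rw [← (h.hY s0 hs0).2.2.2]
    exact hU0
  have hF : IsClosed ({d : ℂ | d ^ (2 * K) = 1} \ {c s0}) :=
    ((roots_finite hK).subset Set.sdiff_subset).isClosed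
  have e9 : ∀ᶠ s in 𝓝 s0, c s ∈ ({d : ℂ | d ^ (2 * K) = 1} \ {c s0})ᶜ :=
    e6.eventually (hF.isOpen_compl.mem_nhds (fun hh => hh.2 rfl))
  filter_upwards [hP, hUe, e9] with s k1 k2 k3
  obtain ⟨f1, f2, f3, f4⟩ := h.hY s k1.1
  have k4 : c s ^ (2 * K) = 1 := hU (Y s) (c s) T hT f1 (by rw [f4]; exact k2) f2 f3
  by_contra hne
  exact k3 ⟨k4, hne⟩

/-- The rotation is constant on the family. -/
theorem Fam.c_all (hNEM : S_NEM) (hAFL : S_NEM → S_AFL) (hXAN : S_XAN) (h : Fam m a b T Y c γ)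
    (hT : 0 < T) {K : ℕ} {U : Set (Ph 3)} (hlk : Lk m K U)
    {s0 : ℝ} (hs0 : s0 ∈ Ioo a b) (hU0 : Y s0 0 ∈ U) {s : ℝ} (hs : s ∈ Ioo a b) : c s = c s0 := by
  have key := ana_prop hs0 (Q := fun s => c s = c s0) (h.c_loc hT hlk hs0 hU0) ?_ s hs
  · exact key.self_of_nhds
  · intro s1 hs1 hfr
    obtain ⟨P, hP⟩ := h.loc hT hs1
    set F : ℝ → cm m := fun s => P.g T (γ s) - rotL m (c s0) (γ s) with hF
    have hFa : AnalyticAt ℝ F s1 := by
      have h1 : AnalyticAt ℝ (fun s => P.g T (γ s)) s1 :=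
        (an_flow hNEM hAFL hXAN P hT.le hP.self_of_nhds.2.2.1).comp (h.hγ s1 hs1)
      have h2 : AnalyticAt ℝ (fun s => rotL m (c s0) (γ s)) s1 :=
        ((rotL m (c s0)).analyticAt _).comp (h.hγ s1 hs1)
      exact h1.sub h2
    have hP' : ∀ᶠ s in 𝓝[≠] s1, s ∈ Ioo a b ∧ (∀ t, ((P.g t (γ s) : cm m) : Ph 3) = Y s t) ∧
      (∀ t, ((P.g t (γ s) : cm m) : Ph 3) ∈ P.S) ∧ P.g T (γ s) = c s • γ s :=
      hP.filter_mono nhdsWithin_le_nhds
    have h3 : ∃ᶠ s in 𝓝[≠] s1, F s = 0 := by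
      refine (hfr.and_eventually hP').mono fun s hs => ?_
      obtain ⟨h4, h5⟩ := hs
      have h4' : c s = c s0 := h4
      rw [hF]
      simp only
      rw [h5.2.2.2, h4', rotL_apply, sub_self]
    filter_upwards [freq_zero hFa h3, hP] with s h4 h5
    have h7 : P.g T (γ s) - rotL m (c s0) (γ s) = 0 := h4
    rw [h5.2.2.2, rotL_apply] at h7
    have h8 : c s • γ s = c s0 • γ s := sub_eq_zero.mp h7
    obtain ⟨i, hi⟩ := exists_ne_zero (by norm_num) ((h.hY s h5.1).1.mem 0)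
    rw [(h.hY s h5.1).2.2.2] at hi
    have h9 : c s * (γ s : Ph 3).1 i = c s0 * (γ s : Ph 3).1 i :=
      congrArg (fun z : cm m => (z : Ph 3).1 i) h8
    exact mul_right_cancel₀ hi h9

/-- The angular momentum along the family. -/
theorem Fam.ang_deriv (h : Fam m a b T Y c γ) {s : ℝ} (hs : s ∈ Ioo a b) :
    HasDerivAt (fun s => ang m (γ s : Ph 3))
      (ome m (Complex.I • (γ s : Ph 3)) ((deriv γ s : cm m) : Ph 3)) s := by
  have hd1 : HasDerivAt γ (deriv γ s) s := (h.hγ s hs).differentiableAt.hasDerivAt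
  have hd2 : HasDerivAt (fun l => ((γ l : cm m) : Ph 3)) ((deriv γ s : cm m) : Ph 3) s :=
    (inc m).hasFDerivAt.comp_hasDerivAt s hd1
  have hd3 : HasFDerivAt (ang m) (fderiv ℝ (ang m) (γ s : Ph 3))
      ((fun l => ((γ l : cm m) : Ph 3)) s) :=
    (contDiff_ang.differentiable one_ne_zero _).hasFDerivAt
  have hd4 := hd3.comp_hasDerivAt s hd2
  rw [fderiv_ang] at hd4
  exact hd4

/-- The energy is constant if the rotation is. -/
theorem Fam.energy_all (h : Fam m a b T Y c γ) (hT : 0 < T) {c0 : ℂ}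
    (hc : ∀ s ∈ Ioo a b, c s = c0) {s s0 : ℝ} (hs : s ∈ Ioo a b) (hs0 : s0 ∈ Ioo a b) :
    energy m (γ s : Ph 3) = energy m (γ s0 : Ph 3) := by
  have hen : ∀ s ∈ Ioo a b, HasDerivAt (fun s => energy m (γ s : Ph 3)) 0 s := by
    intro s hs
    obtain ⟨P, hP⟩ := h.loc hT hs
    have hc0 : ‖c0‖ = 1 := by rw [← hc s hs]; exact (h.hY s hs).2.1
    have hd1 : HasDerivAt γ (deriv γ s) s := (h.hγ s hs).differentiableAt.hasDerivAt
    have h1 : HasDerivAt (fun l => P.g T (γ l)) (fderiv ℝ (P.g T) (γ s) (deriv γ s)) s :=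
      (P.diff T (γ s)).comp_hasDerivAt s hd1
    have h2 : HasDerivAt (fun l => c0 • γ l) (c0 • deriv γ s) s := hd1.const_smul c0
    have h3 : (fun l => P.g T (γ l)) =ᶠ[𝓝 s] fun l => c0 • γ l := by
      filter_upwards [hP] with l hl
      rw [hl.2.2.2, hc l hl.1]
    have h4 : fderiv ℝ (P.g T) (γ s) (deriv γ s) = c0 • deriv γ s :=
      (h1.congr_of_eventuallyEq h3.symm).unique h2
    have h5 := dE_zero P hP.self_of_nhds.2.2.1 hT hc0 h3.self_of_nhds h4
    have hne' : ∀ a b, a ≠ b → (γ s : Ph 3).1 a ≠ (γ s : Ph 3).1 b := by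
      rw [← (h.hY s hs).2.2.2]
      exact ((h.hY s hs).1.mem 0).1
    have h6 : HasFDerivAt (energy m) (fderiv ℝ (energy m) (γ s : Ph 3)) (γ s : Ph 3) :=
      ((contDiffAt_energy' (N := 1) hne').differentiableAt one_ne_zero).hasFDerivAt
    have h7 : HasDerivAt (fun l => ((γ l : cm m) : Ph 3)) ((deriv γ s : cm m) : Ph 3) s :=
      (inc m).hasFDerivAt.comp_hasDerivAt s hd1
    have h8 := h6.comp_hasDerivAt s h7
    rw [fderiv_energy hne', h5] at h8
    exact h8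
  exact isOpen_Ioo.is_const_of_deriv_eq_zero isPreconnected_Ioo
    (fun l hl => (hen l hl).differentiableAt.differentiableWithinAt)
    (fun l hl => (hen l hl).deriv) hs hs0

/-- If the angular momentum is not constant then its derivative does not vanish near `s0`, except
perhaps at `s0`. -/
theorem Fam.ang_ne (h : Fam m a b T Y c γ) {s1 s2 : ℝ} (hs1 : s1 ∈ Ioo a b) (hs2 : s2 ∈ Ioo a b)
    (hL : ang m (γ s1 : Ph 3) ≠ ang m (γ s2 : Ph 3)) {s0 : ℝ} (hs0 : s0 ∈ Ioo a b) :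
    ∀ᶠ s in 𝓝[≠] s0, ome m (Complex.I • (γ s : Ph 3)) ((deriv γ s : cm m) : Ph 3) ≠ 0 := by
  obtain ⟨ω, hω⟩ := exists_om m
  set D : ℝ → ℝ := fun s => ω (rotL m Complex.I (γ s)) (deriv γ s) with hD
  have hDe : ∀ s, D s = ome m (Complex.I • (γ s : Ph 3)) ((deriv γ s : cm m) : Ph 3) := by
    intro s
    rw [hD]
    simp only
    rw [hω]
    rfl
  have hDa : ∀ s ∈ Ioo a b, AnalyticAt ℝ D s := by
    intro s hs
    have h1 : AnalyticAt ℝ (fun s => rotL m Complex.I (γ s)) s :=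
      ((rotL m Complex.I).analyticAt _).comp (h.hγ s hs)
    have h2 : AnalyticAt ℝ (deriv γ) s := (h.hγ s hs).deriv
    have h3 := (ω.analyticAt_bilinear (rotL m Complex.I (γ s), deriv γ s))
    exact AnalyticAt.comp (g := fun p : cm m × cm m => ω p.1 p.2)
      (f := fun s => (rotL m Complex.I (γ s), deriv γ s)) h3 (h1.prod h2)
  rcases (hDa s0 hs0).eventually_eq_zero_or_eventually_ne_zero with h1 | h1
  · exfalso
    have h2 := ana_prop hs0 (Q := fun s => D s = 0) h1 fun s hs hfr => freq_zero (hDa s hs) hfr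
    apply hL
    refine isOpen_Ioo.is_const_of_deriv_eq_zero (f := fun s => ang m (γ s : Ph 3))
      isPreconnected_Ioo
      (fun l hl => (h.ang_deriv hl).differentiableAt.differentiableWithinAt)
      (fun l hl => ?_) hs1 hs2
    rw [(h.ang_deriv hl).deriv, ← hDe]
    exact (h2 l hl).self_of_nhds
  · filter_upwards [h1] with s hs
    rw [← hDe]
    exact hs

end

/-- Locally constant off a point implies locally constant, for `C^1` functions. -/
theorem const_near {A : ℝ → ℝ} {s0 : ℝ} (hA : ContDiffAt ℝ 1 A s0)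
    (h : ∀ᶠ s in 𝓝[≠] s0, deriv A s = 0) : ∀ᶠ s in 𝓝 s0, A s = A s0 := by
  have h1 : Tendsto (deriv A) (𝓝[≠] s0) (𝓝 (deriv A s0)) :=
    (gen_cd hA).tendsto.mono_left nhdsWithin_le_nhds
  have h2 : Tendsto (deriv A) (𝓝[≠] s0) (𝓝 0) :=
    tendsto_const_nhds.congr' (h.mono fun s hs => hs.symm)
  have h3 : deriv A s0 = 0 := tendsto_nhds_unique h1 h2
  have h4 : ∀ᶠ s in 𝓝 s0, deriv A s = 0 := by
    rw [eventually_nhdsWithin_iff] at h
    filter_upwards [h] with s hs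
    by_cases hss : s = s0
    · rw [hss, h3]
    · exact hs hss
  have h5 : ∀ᶠ s in 𝓝 s0, DifferentiableAt ℝ A s := by
    have := hA.eventually (by simp)
    exact this.mono fun s hs => hs.differentiableAt one_ne_zero
  obtain ⟨ε, hε, hb⟩ := Metric.eventually_nhds_iff_ball.mp (h4.and h5)
  filter_upwards [Metric.ball_mem_nhds s0 hε] with s hs
  exact Metric.isOpen_ball.is_const_of_deriv_eq_zero (convex_ball s0 ε).isPreconnected
    (fun l hl => (hb l hl).2.differentiableWithinAt) (fun l hl => (hb l hl).1) hs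
    (Metric.mem_ball_self hε)

end Pool.Agent.D0H95.GL
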