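import Pool.Agent.D0H95.GL.Glob

/-!
The elliptic multipliers are constant on analytic families through the neighbourhood of a stable orbit.
-/

set_option autoImplicit false

namespace Pool.Agent.D0H95.GL

open Pool.Agent.W821.TB Pool.Agent.D0H95.NB Pool.Agent.D0H95.BF Filter Topology Set

variable {m : Fin 3 → ℝ}

theorem an_comp {E : Type} [NormedAddCommGroup E] [NormedSpace ℝ E] (R : E →L[ℝ] E)
    {f : ℝ → E →L[ℝ] E} {s : ℝ} (hf : AnalyticAt ℝ f s) :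
    AnalyticAt ℝ (fun s => R.comp (f s)) s :=
  ((ContinuousLinearMap.compL ℝ E E E R).analyticAt _).comp hf

section

variable {a b T : ℝ} {Y : ℝ → ℝ → Ph 3} {c : ℝ → ℂ} {γ : ℝ → cm m}

theorem Fam.pairs_near (hBU : S_BU) (hNT : S_NT) (hEIG : S_EIG) (hm : ∀ a, 0 < m a)
    (h : Fam m a b T Y c γ) (hT : 0 < T) {K : ℕ} {U : Set (Ph 3)} (hlk : Lk m K U)
    {s0 : ℝ} (hs0 : s0 ∈ Ioo a b) (hU0 : Y s0 0 ∈ U) (hre : ¬ IsRelEq (Y s0))
    {c0 : ℂ} (hc0 : ∀ s ∈ Ioo a b, c s = c0)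
    (hD : ∀ᶠ s in 𝓝[≠] s0, ome m (Complex.I • (γ s : Ph 3)) ((deriv γ s : cm m) : Ph 3) ≠ 0)
    {α1 α2 : ℝ} (hs1 : Real.sin α1 ≠ 0) (hs2 : Real.sin α2 ≠ 0)
    (hcc : Real.cos α1 ≠ Real.cos α2)
    (h1 : Pair m (Y s0) T c0 α1) (h2 : Pair m (Y s0) T c0 α2) :
    ∀ᶠ s in 𝓝 s0, Pair m (Y s) T c0 α1 ∧ Pair m (Y s) T c0 α2 := by
  obtain ⟨P, hP⟩ := h.loc hT hs0
  obtain ⟨ω, hω⟩ := exists_om m
  have hcn : ‖c0‖ = 1 := by rw [← hc0 s0 hs0]; exact (h.hY s0 hs0).2.1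
  have hP0 := hP.self_of_nhds
  have hgx : (fun t => ((P.g t (γ s0) : cm m) : Ph 3)) = Y s0 := funext hP0.2.1
  have hS0 := hP0.2.2.1
  have hgT : P.g T (γ s0) = c0 • γ s0 := by rw [hP0.2.2.2, hc0 s0 hs0]
  have hY0 : Y s0 0 = (γ s0 : Ph 3) := (h.hY s0 hs0).2.2.2
  have hsol := (h.hY s0 hs0).1
  obtain ⟨p1, r1, hn1, hp1, hr1⟩ := pair_vec hm hS0 hT (by rw [hgx]; exact h1)
  obtain ⟨p2, r2, hn2, hp2, hr2⟩ := pair_vec hm hS0 hT (by rw [hgx]; exact h2)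
  have hindz : ∀ a b : ℝ, a • vf m ((γ s0 : cm m) : Ph 3) +
      b • (Complex.I • ((γ s0 : cm m) : Ph 3)) = 0 → a = 0 ∧ b = 0 := by
    intro a b hab
    rw [← hY0] at hab
    exact indep (by norm_num) hm hsol hre a b hab
  have hE0 : EP0 P T c0 (γ s0) p1 r1 p2 r2 α1 α2 :=
    ⟨hS0, hgT, hp1, hr1, hp2, hr2, hn1, hn2, hs1, hs2, hcc, hindz⟩
  have hE := hE0.toEP hm hT hcn
  have hγc1 : ContDiffAt ℝ 1 γ s0 := (h.hγ s0 hs0).contDiffAt
  have hSev : ∀ᶠ l in 𝓝 s0, ∀ t, ((P.g t (γ l) : cm m) : Ph 3) ∈ P.S :=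
    hP.mono fun l hl => hl.2.2.1
  obtain ⟨P1, R1, A1, a1, a2, a3, a4, a5, a6, a7⟩ := eig_cont hEIG hm (N := 1) le_rfl hT hcn
    (γ := γ) (l0 := s0) (by exact_mod_cast hγc1) hSev hE
  obtain ⟨P2, R2, A2, b1, b2, b3, b4, b5, b6, b7⟩ := eig_cont hEIG hm (N := 1) le_rfl hT hcn
    (γ := γ) (l0 := s0) (by exact_mod_cast hγc1) hSev hE.swap
  have hcp1 : ContDiffAt ℝ 1 P1 s0 := by exact_mod_cast a4
  have hcr1 : ContDiffAt ℝ 1 R1 s0 := by exact_mod_cast a5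
  have hca1 : ContDiffAt ℝ 1 A1 s0 := by exact_mod_cast a6
  have hcp2 : ContDiffAt ℝ 1 P2 s0 := by exact_mod_cast b4
  have hcr2 : ContDiffAt ℝ 1 R2 s0 := by exact_mod_cast b5
  have hca2 : ContDiffAt ℝ 1 A2 s0 := by exact_mod_cast b6
  -- everything near `s0`
  have hγc : ContinuousAt γ s0 := hγc1.continuousAt
  have hγcm : ContinuousAt (fun l => ((γ l : cm m) : Ph 3)) s0 :=
    (inc m).continuous.continuousAt.comp hγc
  have hUe : ∀ᶠ l in 𝓝 s0, ((γ l : cm m) : Ph 3) ∈ U := by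
    refine hγcm.eventually (hlk.2.1.mem_nhds ?_)
    change ((γ s0 : cm m) : Ph 3) ∈ U
    rw [← hY0]
    exact hU0
  have hne0 : ∀ a b, a ≠ b → ((γ s0 : cm m) : Ph 3).1 a ≠ ((γ s0 : cm m) : Ph 3).1 b := by
    rw [← hY0]; exact (hsol.mem 0).1
  have hind : ∀ᶠ l in 𝓝 s0, ∀ a b : ℝ,
      a • vf m ((γ l : cm m) : Ph 3) + b • (Complex.I • ((γ l : cm m) : Ph 3)) = 0 →
      a = 0 ∧ b = 0 := by
    have h1 : LinearIndependent ℝ
        ![vf m ((γ s0 : cm m) : Ph 3), Complex.I • ((γ s0 : cm m) : Ph 3)] := by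
      rw [LinearIndependent.pair_iff]
      intro s t hst'
      exact hindz s t hst'
    have h2 : Tendsto (fun l => ![vf m ((γ l : cm m) : Ph 3), Complex.I • ((γ l : cm m) : Ph 3)])
        (𝓝 s0) (𝓝 ![vf m ((γ s0 : cm m) : Ph 3), Complex.I • ((γ s0 : cm m) : Ph 3)]) := by
      have h3 : ContinuousAt (fun l => vf m ((γ l : cm m) : Ph 3)) s0 := by
        have h4 : ContinuousAt (vf m) ((fun l => ((γ l : cm m) : Ph 3)) s0) :=
          (contDiffAt_vf hne0).continuousAt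
        exact ContinuousAt.comp (g := vf m) (f := fun l => ((γ l : cm m) : Ph 3)) h4 hγcm
      have h5 : ContinuousAt (fun l => Complex.I • ((γ l : cm m) : Ph 3)) s0 :=
        (continuous_const_smul Complex.I).continuousAt.comp hγcm
      rw [tendsto_pi_nhds]
      intro i
      fin_cases i
      · exact h3
      · exact h5
    filter_upwards [h2.eventually h1.eventually] with l hl
    exact LinearIndependent.pair_iff.mp hl
  have hωc : ∀ {p r : ℝ → cm m}, ContinuousAt p s0 → ContinuousAt r s0 →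
      ContinuousAt (fun l => ome m (p l : Ph 3) (r l : Ph 3)) s0 := by
    intro p r hp hr
    have h1 : ContinuousAt (fun l => ω (p l) (r l)) s0 :=
      (ω.continuous.continuousAt.comp hp).clm_apply hr
    have h2 : (fun l => ω (p l) (r l)) = fun l => ome m (p l : Ph 3) (r l : Ph 3) :=
      funext fun l => hω _ _
    rwa [h2] at h1
  have hw1 := (hωc hcp1.continuousAt hcr1.continuousAt).eventually_ne
    (by rw [a1, a2]; exact hE.hω1 : ome m (P1 s0 : Ph 3) (R1 s0 : Ph 3) ≠ 0)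
  have hw2 := (hωc hcp2.continuousAt hcr2.continuousAt).eventually_ne
    (by rw [b1, b2]; exact hE.hω2 : ome m (P2 s0 : Ph 3) (R2 s0 : Ph 3) ≠ 0)
  have hsin1 : ∀ᶠ l in 𝓝 s0, Real.sin (A1 l) ≠ 0 :=
    (Real.continuous_sin.continuousAt.comp hca1.continuousAt).eventually_ne
      (by simp only [Function.comp]; rw [a3]; exact hs1)
  have hsin2 : ∀ᶠ l in 𝓝 s0, Real.sin (A2 l) ≠ 0 :=
    (Real.continuous_sin.continuousAt.comp hca2.continuousAt).eventually_ne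
      (by simp only [Function.comp]; rw [b3]; exact hs2)
  have hcc' : ∀ᶠ l in 𝓝 s0, Real.cos (A1 l) ≠ Real.cos (A2 l) := by
    have h1 : ContinuousAt (fun l => Real.cos (A1 l) - Real.cos (A2 l)) s0 :=
      (Real.continuous_cos.continuousAt.comp hca1.continuousAt).sub
        (Real.continuous_cos.continuousAt.comp hca2.continuousAt)
    filter_upwards [h1.eventually_ne (by rw [a3, b3]; exact sub_ne_zero.mpr hcc)] with l hl
    exact sub_ne_zero.mp hl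
  have hall : ∀ᶠ l in 𝓝 s0, ome m (Complex.I • (γ l : Ph 3)) ((deriv γ l : cm m) : Ph 3) ≠ 0 →
      deriv A1 l = 0 ∧ deriv A2 l = 0 := by
    filter_upwards [hP, hP.eventually_nhds, hUe, hcp1.eventually (by simp),
      hcr1.eventually (by simp), hca1.eventually (by simp),
      hcp2.eventually (by simp), hcr2.eventually (by simp), hca2.eventually (by simp),
      a7.eventually_nhds, b7.eventually_nhds, hw1, hw2, hsin1, hsin2, hcc', hind]
      with l e1 e2 e3 e4 e5 e6 e7 e8 e9 e10 e11 e12 e13 e14 e15 e16 e17 hl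
    have hYl : Y l 0 = (γ l : Ph 3) := (h.hY l e1.1).2.2.2
    have hcore := coreL hBU hNT hm hlk (h.hY l e1.1).1 (by rw [hYl]; exact e17)
      (by rw [hYl]; exact e3) (P := P) hT hcn (γ := γ) (p1 := P1) (r1 := R1)
      (p2 := P2) (r2 := R2) (α1 := A1) (α2 := A2) (l0 := l) e1.2.1
      (by
        filter_upwards [e2] with l' hl'
        exact ⟨(h.hγ l' hl'.1).contDiffAt, hl'.2.2.1, by rw [hl'.2.2.2, hc0 l' hl'.1]⟩)
      hl e4 e5 e6 e7 e8 e9 e10 e11 e12 e13 e14 e15 e16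
    constructor
    · have hh : A1 =ᶠ[𝓝 l] fun _ => A1 l := hcore.mono fun x hx => hx.1
      rw [hh.deriv_eq, deriv_const]
    · have hh : A2 =ᶠ[𝓝 l] fun _ => A2 l := hcore.mono fun x hx => hx.2
      rw [hh.deriv_eq, deriv_const]
  have hall' : ∀ᶠ l in 𝓝[≠] s0, deriv A1 l = 0 ∧ deriv A2 l = 0 := by
    filter_upwards [hall.filter_mono nhdsWithin_le_nhds, hD] with l hl1 hl2
    exact hl1 hl2
  have f1 := const_near hca1 (hall'.mono fun l hl => hl.1)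
  have f2 := const_near hca2 (hall'.mono fun l hl => hl.2)
  have hn1' : ∀ᶠ l in 𝓝 s0, P1 l ≠ 0 := hcp1.continuousAt.eventually_ne (by rw [a1]; exact hn1)
  have hn2' : ∀ᶠ l in 𝓝 s0, P2 l ≠ 0 := hcp2.continuousAt.eventually_ne (by rw [b1]; exact hn2)
  filter_upwards [hP, f1, f2, hn1', hn2', a7, b7] with l g1 g2 g3 g4 g5 g6 g7
  have hgl : (fun t => ((P.g t (γ l) : cm m) : Ph 3)) = Y l := funext g1.2.1
  have hgTl : P.g T (γ l) = c0 • γ l := by rw [g1.2.2.2, hc0 l g1.1]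
  rw [a3] at g2
  rw [b3] at g3
  rw [g2] at g6
  rw [g3] at g7
  constructor
  · have := vec_pair g1.2.2.1 hcn hgTl g4 g6.1 g6.2
    rwa [hgl] at this
  · have := vec_pair g1.2.2.1 hcn hgTl g5 g7.1 g7.2
    rwa [hgl] at this

theorem Fam.pair_all (hNEM : S_NEM) (hAFL : S_NEM → S_AFL) (hXAN : S_XAN) (hm : ∀ a, 0 < m a)
    (h : Fam m a b T Y c γ) (hT : 0 < T) {c0 : ℂ} (hc0 : ∀ s ∈ Ioo a b, c s = c0)
    {s0 : ℝ} (hs0 : s0 ∈ Ioo a b) {α : ℝ} (hsin : Real.sin α ≠ 0)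
    (hnear : ∀ᶠ s in 𝓝 s0, Pair m (Y s) T c0 α) {s : ℝ} (hs : s ∈ Ioo a b) :
    Pair m (Y s) T c0 α := by
  have hcn : ‖c0‖ = 1 := by rw [← hc0 s0 hs0]; exact (h.hY s0 hs0).2.1
  have hcne : c0 ≠ 0 := by rintro rfl; simp at hcn
  have hinv : ∀ {v w : cm m}, c0⁻¹ • v = w → v = c0 • w := by
    intro v w hvw
    rw [← hvw, smul_smul, mul_inv_cancel₀ hcne, one_smul]
  have hinv' : ∀ {v w : cm m}, v = c0 • w → c0⁻¹ • v = w := by
    intro v w hvw
    rw [hvw, smul_smul, inv_mul_cancel₀ hcne, one_smul]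
  refine (ana_prop hs0 (Q := fun s => Pair m (Y s) T c0 α) hnear ?_ s hs).self_of_nhds
  intro s1 hs1 hfr
  obtain ⟨P, hP⟩ := h.loc hT hs1
  set M : ℝ → (cm m →L[ℝ] cm m) := fun s => (rotL m c0⁻¹).comp (fderiv ℝ (P.g T) (γ s)) with hM
  have hMv : ∀ s v, M s v = c0⁻¹ • fderiv ℝ (P.g T) (γ s) v := fun s v => rfl
  have hMa : AnalyticAt ℝ M s1 := by
    have h1 : AnalyticAt ℝ (fun s => fderiv ℝ (P.g T) (γ s)) s1 :=
      (an_flow hNEM hAFL hXAN P hT.le hP.self_of_nhds.2.2.1).fderiv.comp (h.hγ s1 hs1)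
    exact an_comp (rotL m c0⁻¹) h1
  have hKa : AnalyticAt ℝ (fun s => KE (M s) (Real.cos α)) s1 := by
    have h1 : (fun s => KE (M s) (Real.cos α)) = fun s =>
      M s * M s - (2 * Real.cos α) • M s + 1 := rfl
    rw [h1]
    exact ((hMa.mul hMa).sub ((analyticAt_const (v := 2 * Real.cos α)).smul hMa)).add
      analyticAt_const
  have hda := an_detE hKa
  have hfz : ∃ᶠ s in 𝓝[≠] s1,
      LinearMap.det ((KE (M s) (Real.cos α) : cm m →L[ℝ] cm m) : cm m →ₗ[ℝ] cm m) = 0 := by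
    refine (hfr.and_eventually (hP.filter_mono nhdsWithin_le_nhds)).mono fun s hs => ?_
    obtain ⟨h4, h5⟩ := hs
    have h4' : Pair m (Y s) T c0 α := h4
    have hgs : (fun t => ((P.g t (γ s) : cm m) : Ph 3)) = Y s := funext h5.2.1
    rw [← hgs] at h4'
    obtain ⟨p, r, hn, hp, hr⟩ := pair_vec hm h5.2.2.1 hT h4'
    exact pr_ker (M := M s) (α := α) (q := p) (s := r) hn (by rw [hMv]; exact hinv' hp)
      (by rw [hMv]; exact hinv' hr)
  filter_upwards [freq_zero hda hfz, hP] with s h4 h5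
  obtain ⟨q, r, hq, hq1, hq2⟩ := det_pr hsin h4
  rw [hMv] at hq1 hq2
  have hgs : (fun t => ((P.g t (γ s) : cm m) : Ph 3)) = Y s := funext h5.2.1
  have hgTs : P.g T (γ s) = c0 • γ s := by rw [h5.2.2.2, hc0 s h5.1]
  have := vec_pair h5.2.2.1 hcn hgTs hq (hinv hq1) (hinv hq2)
  rwa [hgs] at this

end

end Pool.Agent.D0H95.GL
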