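import Pool.Agent.D0H95.BF.Spec

/-!
The neighbourhood version of the results on stable orbits: only the locking of the rotations of the
relative periodic solutions which start in an open set is used.
-/

set_option autoImplicit false

namespace Pool.Agent.D0H95.GL

open Pool.Agent.W821.TB Pool.Agent.D0H95.NB Pool.Agent.D0H95.BF Finset Filter Topology

/-- The rotations of all relative periodic solutions which start in the open set `U` are roots of unity of
order `2 * K`. -/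
def Lk {n : ℕ} (m : Fin n → ℝ) (K : ℕ) (U : Set (Ph n)) : Prop :=
  1 ≤ K ∧ IsOpen U ∧ ∀ (y : ℝ → Ph n) (d : ℂ) (S : ℝ), 0 < S →
      IsSol m Set.univ y → y 0 ∈ U → ‖d‖ = 1 → (∀ t, y (t + S) = d • y t) → d ^ (2 * K) = 1

theorem lk_stable {n : ℕ} {m : Fin n → ℝ} (hn : 2 ≤ n) (hm : ∀ a, 0 < m a) {x : ℝ → Ph n}
    (hx : IsSol m Set.univ x) (hre : ¬ IsRelEq x) (hst : LyapunovStable m (Set.range x))
    {T : ℝ} (hT : 0 < T) {c : ℂ} (hc : ‖c‖ = 1) (hper : ∀ t, x (t + T) = c • x t) :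
    ∃ (K : ℕ) (U : Set (Ph n)), Lk m K U ∧ Set.range x ⊆ U := by
  obtain ⟨K, hK, U, hU, hxU, h⟩ := lock' hn hm hx hre hst hT hc hper
  exact ⟨K, U, ⟨hK, hU, h⟩, hxU⟩

/-- Relative periodic solutions which start in `U` are degenerate. -/
theorem lk_degenerate {n : ℕ} {m : Fin n → ℝ} (hn : 2 ≤ n) (hm : ∀ a, 0 < m a) {K : ℕ}
    {U : Set (Ph n)} (hlk : Lk m K U) {x : ℝ → Ph n}
    (hx : IsSol m Set.univ x) (hre : ¬ IsRelEq x) (hxU : x 0 ∈ U)
    {T : ℝ} (hT : 0 < T) {c : ℂ} (hc : ‖c‖ = 1) (hper : ∀ t, x (t + T) = c • x t) :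
    ¬ Nondeg m x T c := by
  intro hnd
  obtain ⟨hK, hUo, hU⟩ := hlk
  have hc1 : c ^ (2 * K) = 1 := hU x c T hT hx hxU hc hper
  have hUn : U ∈ 𝓝 (x 0) := hUo.mem_nhds hxU
  have hp := persistence hn hm hx hre hT hc hper hnd hUn
  obtain ⟨ε, hε0, hε⟩ := Metric.eventually_nhds_iff.mp hp
  have hK0 : (0:ℝ) < K := by exact_mod_cast hK
  set s : ℝ := min (ε / 2) (Real.pi / (2 * K)) with hs
  have hs0 : 0 < s := lt_min (by positivity) (by positivity)
  have hs1 : s < ε := lt_of_le_of_lt (min_le_left _ _) (by linarith)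
  obtain ⟨y, hy, hyU, hyd⟩ := hε (y := s) (by
    rw [Real.dist_eq, sub_zero, abs_of_pos hs0]; exact hs1)
  have hd : ‖Complex.exp (s * Complex.I) * c‖ = 1 := by rw [norm_mul, hc, norm_expI, one_mul]
  have h1 := hU y _ T hT hy hyU hd hyd
  have h2 : s = 0 := by
    refine small_angle hK ?_ hc1 h1
    rw [abs_of_pos hs0]
    refine lt_of_le_of_lt (min_le_right _ _) ?_
    have hpi := Real.pi_pos
    rw [div_lt_div_iff₀ (by positivity) hK0]
    nlinarith [mul_pos hpi hK0]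
  exact hs0.ne' h2

/-- **Isochronous families**, in the region of a cut-off flow. -/
theorem isoL {n : ℕ} {m : Fin n → ℝ} (hn : 2 ≤ n) (hm : ∀ a, 0 < m a) {K : ℕ} {U : Set (Ph n)}
    (hlk : Lk m K U) {x : ℝ → Ph n}
    (hx : IsSol m Set.univ x) (hre : ¬ IsRelEq x) (hxU : x 0 ∈ U)
    {T : ℝ} (hT : 0 < T) {c : ℂ} (hc : ‖c‖ = 1) (hper : ∀ t, x (t + T) = c • x t)
    (hR : ∀ ξ : ℝ → Ph n, IsJac m x ξ → (∀ t, ξ (t + T) = c • ξ t) →
      (∀ t, fderiv ℝ (ang m) (x t) (ξ t) = 0) →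
      ∃ α β : ℝ, ∀ t, ξ t = α • vf m (x t) + β • (Complex.I • x t))
    (P : Pk m) (hxS : ∀ t, x t ∈ P.S) :
    ∃ (γ : ℝ → cm m) (ε : ℝ), 0 < ε ∧ (∀ t, ((P.g t (γ (ang m (x 0))) : cm m) : Ph n) = x t) ∧
      ∀ l ∈ Metric.ball (ang m (x 0)) ε, ContDiffAt ℝ 1 γ l ∧
        (∀ t, ((P.g t (γ l) : cm m) : Ph n) ∈ P.S) ∧ P.g T (γ l) = c • γ l ∧
        energy m (γ l : Ph n) = energy m (x 0) ∧ ang m (γ l : Ph n) = l := by
  have hc0 : c ≠ 0 := by rintro rfl; simp at hc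
  set z0 : cm m := ⟨x 0, sol_cm hx 0⟩ with hz0
  have hg : ∀ t, ((P.g t z0 : cm m) : Ph n) = x t := P.of_sol hx hxS
  have hS0 : ∀ t, ((P.g t z0 : cm m) : Ph n) ∈ P.S := fun t => by rw [hg]; exact hxS t
  have hgT : P.g T z0 = c • z0 := by
    apply Subtype.ext
    rw [hg]
    have := hper 0
    rw [zero_add] at this
    exact this
  have hne : ∀ a b, a ≠ b → (z0 : Ph n).1 a ≠ (z0 : Ph n).1 b := (hx.mem 0).1
  -- the map
  set e : ℝ → ℂ := fun s => Complex.exp (-(s * Complex.I)) * c⁻¹ with he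
  have he_norm : ∀ s, ‖e s‖ = 1 := by
    intro s
    rw [he]
    simp only
    rw [norm_mul, norm_inv, hc, inv_one, mul_one,
      show -((s : ℂ) * Complex.I) = ((-s : ℝ) : ℂ) * Complex.I by push_cast; ring]
    exact norm_expI _
  have hed : ContDiff ℝ 1 e := by
    rw [he]
    have h1 : ContDiff ℝ 1 (fun s : ℝ => -((s : ℂ) * Complex.I)) :=
      (Complex.ofRealCLM.contDiff.mul contDiff_const).neg
    exact h1.cexp.mul contDiff_const
  set F : ℝ × cm m → cm m := fun p => e p.1 • P.g T p.2 with hF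
  have hFd : ContDiff ℝ 1 F := by
    have h1 : ContDiff ℝ 1 (fun p : ℝ × cm m =>
        (ContinuousLinearMap.lsmul ℝ ℂ : ℂ →L[ℝ] cm m →L[ℝ] cm m) (e p.1)) :=
      ContDiff.comp (g := fun w : ℂ => (ContinuousLinearMap.lsmul ℝ ℂ : ℂ →L[ℝ] cm m →L[ℝ] cm m) w)
        (f := fun p : ℝ × cm m => e p.1) (ContinuousLinearMap.contDiff _)
        (hed.comp contDiff_fst)
    exact h1.clm_apply ((P.cd_t T).comp contDiff_snd)
  have e0 : e 0 = c⁻¹ := by rw [he]; simp
  have hF0 : F (0, z0) = z0 := by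
    rw [hF]
    simp only
    rw [e0, hgT, smul_smul, inv_mul_cancel₀ hc0, one_smul]
  have hnear := P.near (z0 := z0) (T := T) (fun t _ => hS0 t)
  have hinv : ∀ᶠ p in 𝓝 ((0:ℝ), z0), QQ m (F p) = QQ m p.2 := by
    have h1 : Tendsto (fun p : ℝ × cm m => p.2) (𝓝 ((0:ℝ), z0)) (𝓝 z0) :=
      continuous_snd.tendsto _
    filter_upwards [h1.eventually hnear] with p hp
    rw [hF]
    simp only
    rw [QQ_smul (he_norm _)]
    unfold QQ
    rw [P.energy_eq hT.le hp, P.ang_eq hT.le hp]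
  -- the derivative of `F`
  have hFder : ∀ (s : ℝ) (v : cm m), fderiv ℝ F (0, z0) (s, v) =
      c⁻¹ • fderiv ℝ (P.g T) z0 v - s • (Complex.I • z0) := by
    intro s v
    have h1 : HasDerivAt (fun r : ℝ => F (r * s, z0 + r • v)) (fderiv ℝ F (0, z0) (s, v)) 0 := by
      have h2 : HasDerivAt (fun r : ℝ => ((r * s, z0 + r • v) : ℝ × cm m)) (s, v) 0 := by
        have h3 : HasDerivAt (fun r : ℝ => r * s) s 0 := by
          simpa using (hasDerivAt_id (0:ℝ)).mul_const s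
        have h4 : HasDerivAt (fun r : ℝ => z0 + r • v) v 0 := by
          simpa using ((hasDerivAt_id (0:ℝ)).smul_const v).const_add z0
        exact h3.prodMk h4
      have h3 : HasFDerivAt F (fderiv ℝ F (0, z0))
          ((fun r : ℝ => ((r * s, z0 + r • v) : ℝ × cm m)) 0) := by
        have : (fun r : ℝ => ((r * s, z0 + r • v) : ℝ × cm m)) 0 = (0, z0) := by simp
        rw [this]
        exact (hFd.differentiable one_ne_zero (0, z0)).hasFDerivAt
      exact h3.comp_hasDerivAt (0:ℝ) h2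
    have h2 : HasDerivAt (fun r : ℝ => e (r * s)) (-(s * Complex.I) * c⁻¹) 0 := by
      have h3 : HasDerivAt (fun r : ℝ => -(((r * s : ℝ) : ℂ) * Complex.I)) (-(s * Complex.I)) 0 := by
        have h4 : HasDerivAt (fun r : ℝ => r * s) s 0 := by
          simpa using (hasDerivAt_id (0:ℝ)).mul_const s
        have h5 := (h4.ofReal_comp.mul_const Complex.I).neg
        exact h5
      have h4 := h3.cexp.mul_const c⁻¹
      have h5 : HasDerivAt (fun r : ℝ => e (r * s)) (Complex.exp (-(((0 * s : ℝ) : ℂ) * Complex.I)) *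
          (-(s * Complex.I)) * c⁻¹) 0 := h4
      refine h5.congr_deriv ?_
      simp
    have h3 : HasDerivAt (fun r : ℝ => P.g T (z0 + r • v)) (fderiv ℝ (P.g T) z0 v) 0 := by
      have h4 : HasDerivAt (fun r : ℝ => z0 + r • v) v 0 := by
        simpa using ((hasDerivAt_id (0:ℝ)).smul_const v).const_add z0
      have h5 : HasFDerivAt (P.g T) (fderiv ℝ (P.g T) z0) ((fun r : ℝ => z0 + r • v) 0) := by
        have : (fun r : ℝ => z0 + r • v) 0 = z0 := by simp
        rw [this]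
        exact P.diff T z0
      exact h5.comp_hasDerivAt (0:ℝ) h4
    have h4 := h2.smul h3
    have h5 := h1.unique h4
    rw [h5]
    simp only [zero_mul, zero_smul, add_zero]
    rw [e0, hgT, smul_smul, mul_assoc, inv_mul_cancel₀ hc0, mul_one, neg_smul, ← sub_eq_add_neg]
    congr 1
    rw [← smul_smul]
    rfl
  -- Jacobi fields
  have hj : ∀ {z : cm m}, (∀ t, ((P.g t z : cm m) : Ph n) ∈ P.S) → ∀ v : cm m,
      JF m (fun t => ((P.g t z : cm m) : Ph n)) (fun t => ((fderiv ℝ (P.g t) z v : cm m) : Ph n)) :=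
    fun hz v t => P.jac hz v t
  have hgx : (fun t => ((P.g t z0 : cm m) : Ph n)) = x := funext hg
  have hjx : ∀ v : cm m, JF m x (fun t => ((fderiv ℝ (P.g t) z0 v : cm m) : Ph n)) := by
    intro v
    have := hj hS0 v
    rwa [hgx] at this
  have hjp : ∀ {z v : cm m}, P.g T z = c • z → fderiv ℝ (P.g T) z v = c • v → ∀ t,
      ((fderiv ℝ (P.g (t + T)) z v : cm m) : Ph n) = c • ((fderiv ℝ (P.g t) z v : cm m) : Ph n) := by
    intro z v hz hv t
    rw [P.D_add, hz, hv, P.D_smul hc]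
    rfl
  -- the third field
  have hnd := lk_degenerate hn hm hlk hx hre hxU hT hc hper
  unfold Nondeg at hnd
  push Not at hnd
  obtain ⟨ξ, hξ, hξp, hξn⟩ := hnd
  have hξJ : JF m x ξ := fun t => (hξ t).2
  have hL0 : fderiv ℝ (ang m) (x 0) (ξ 0) ≠ 0 := by
    intro h0
    have hall : ∀ t, fderiv ℝ (ang m) (x t) (ξ t) = 0 := by
      intro t
      rw [fderiv_ang, wronskian hx (jf_rot hx) hξJ t 0, ← fderiv_ang]
      exact h0
    obtain ⟨α, β, hαβ⟩ := hR ξ hξ hξp hall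
    obtain ⟨t, ht⟩ := hξn α β
    exact ht (hαβ t)
  -- the second component of the derivative of `QQ`
  have hQ2 : ∀ {z : cm m}, (∀ a b, a ≠ b → (z : Ph n).1 a ≠ (z : Ph n).1 b) → ∀ v : cm m,
      (fderiv ℝ (QQ m) z v).2 = fderiv ℝ (ang m) (z : Ph n) (v : Ph n) := by
    intro z hz v
    have h1 : HasFDerivAt (QQ m) (fderiv ℝ (QQ m) z) z :=
      ((contDiffAt_QQ hz).differentiableAt one_ne_zero).hasFDerivAt
    have h2 : HasFDerivAt (fun w : cm m => (QQ m w).2)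
        ((ContinuousLinearMap.snd ℝ ℝ ℝ).comp (fderiv ℝ (QQ m) z)) z :=
      (ContinuousLinearMap.snd ℝ ℝ ℝ).hasFDerivAt.comp z h1
    have h3 : HasFDerivAt (fun w : cm m => ang m (inc m w))
        ((fderiv ℝ (ang m) (inc m z)).comp (inc m)) z :=
      ((contDiff_ang.differentiable one_ne_zero _).hasFDerivAt).comp z (inc m).hasFDerivAt
    have h4 := h2.unique h3
    exact congrArg (fun L : cm m →L[ℝ] ℝ => L v) h4
  have hs : ∀ (s : ℝ) (v : cm m), fderiv ℝ F (0, z0) (s, v) = v →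
      (fderiv ℝ (QQ m) z0 v).2 = 0 → s = 0 := by
    intro s v h1 _
    rw [hFder] at h1
    have h2 : fderiv ℝ (P.g T) z0 v = c • (v + s • (Complex.I • z0)) := by
      rw [← sub_eq_iff_eq_add.mp h1, smul_smul, mul_inv_cancel₀ hc0, one_smul]
    have h3 := wronskian hx (hjx v) hξJ T 0
    rw [h2, P.D_zero] at h3
    have h4 : ξ T = c • ξ 0 := by simpa using hξp 0
    have h5 : ((c • (v + s • (Complex.I • z0)) : cm m) : Ph n) =
        c • ((v : Ph n) + s • (Complex.I • x 0)) := rfl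
    rw [h4, h5, ome_smul hc, ome_add_left, ome_smul_left, ← fderiv_ang] at h3
    have h6 : s * fderiv ℝ (ang m) (x 0) (ξ 0) = 0 := by linarith
    rcases mul_eq_zero.mp h6 with h | h
    · exact h
    · exact absurd h hL0
  have hker : ∀ K : Submodule ℝ (cm m), (∀ v ∈ K, fderiv ℝ F (0, z0) (0, v) = v ∧
      (fderiv ℝ (QQ m) z0 v).2 = 0) → Module.finrank ℝ K ≤ 2 := by
    intro K hK
    classical
    set u1 : cm m := ⟨vf m (x 0), vf_mem (sol_cm hx 0)⟩ with hu1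
    set u2 : cm m := Complex.I • z0 with hu2
    have hsub : K ≤ Submodule.span ℝ (({u1, u2} : Finset (cm m)) : Set (cm m)) := by
      intro v hv
      obtain ⟨h1, h2⟩ := hK v hv
      rw [hFder, zero_smul, sub_zero] at h1
      have hv2 : fderiv ℝ (P.g T) z0 v = c • v := by
        rw [← h1, smul_smul, mul_inv_cancel₀ hc0, one_smul]
        rw [h1]
      rw [hQ2 hne] at h2
      have hjac : IsJac m x (fun t => ((fderiv ℝ (P.g t) z0 v : cm m) : Ph n)) :=
        fun t => ⟨(fderiv ℝ (P.g t) z0 v).2, hjx v t⟩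
      have hang : ∀ t, fderiv ℝ (ang m) (x t) ((fderiv ℝ (P.g t) z0 v : cm m) : Ph n) = 0 := by
        intro t
        rw [fderiv_ang]
        have h3 := wronskian hx (jf_rot hx) (hjx v) t 0
        rw [h3, P.D_zero, ← fderiv_ang]
        exact h2
      obtain ⟨α, β, hαβ⟩ := hR _ hjac (hjp hgT hv2) hang
      have h3 : ((fderiv ℝ (P.g 0) z0 v : cm m) : Ph n) =
        α • vf m (x 0) + β • (Complex.I • x 0) := hαβ 0
      rw [P.D_zero] at h3
      have h4 : v = α • u1 + β • u2 := Subtype.ext h3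
      rw [h4]
      refine Submodule.add_mem _ (Submodule.smul_mem _ _ (Submodule.subset_span ?_))
        (Submodule.smul_mem _ _ (Submodule.subset_span ?_)) <;> simp
    exact (Submodule.finrank_mono hsub).trans
      ((finrank_span_finset_le_card _).trans Finset.card_le_two)
  obtain ⟨γ, hγc, hγ0, hγ⟩ := curve hFd.contDiffAt hF0 (contDiffAt_QQ hne) (surj hn hm hx hre) hinv
    hs hker
  have hQl : (QQ m z0).2 = ang m (x 0) := rfl
  rw [hQl] at hγc hγ0 hγ
  -- locking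
  obtain ⟨hK, hUo, hlock⟩ := hlk
  have hU : U ∈ 𝓝 (x 0) := hUo.mem_nhds hxU
  have hcK : c ^ (2 * K) = 1 := hlock x c T hT hx hxU hc hper
  have hK0 : (0:ℝ) < K := by exact_mod_cast hK
  have hU' : {z : cm m | (z : Ph n) ∈ U} ∈ 𝓝 z0 :=
    (inc m).continuous.continuousAt.eventually (show U ∈ 𝓝 (inc m z0) from hU)
  have ht : Tendsto γ (𝓝 (ang m (x 0))) (𝓝 ((0:ℝ), z0)) := by
    have := hγc.continuousAt.tendsto
    rwa [hγ0] at this
  have ht1 : Tendsto (fun l => (γ l).1) (𝓝 (ang m (x 0))) (𝓝 0) :=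
    (continuous_fst.tendsto ((0:ℝ), z0)).comp ht
  have ht2 : Tendsto (fun l => (γ l).2) (𝓝 (ang m (x 0))) (𝓝 z0) :=
    (continuous_snd.tendsto ((0:ℝ), z0)).comp ht
  have hsmall : ∀ᶠ s : ℝ in 𝓝 0, |s| < Real.pi / K := by
    have : (0:ℝ) < Real.pi / K := by positivity
    filter_upwards [Metric.ball_mem_nhds (0:ℝ) this] with s hs
    rwa [Metric.mem_ball, Real.dist_eq, sub_zero] at hs
  have hgood : ∀ᶠ l in 𝓝 (ang m (x 0)), ContDiffAt ℝ 1 γ l ∧
      (∀ t, ((P.g t (γ l).2 : cm m) : Ph n) ∈ P.S) ∧ P.g T (γ l).2 = c • (γ l).2 ∧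
      ang m ((γ l).2 : Ph n) = l := by
    filter_upwards [hγ, hγc.eventually (by simp), ht2.eventually hU', ht2.eventually hnear,
      ht1.eventually hsmall] with l hl1 hl2 hl3 hl4 hl5
    obtain ⟨hl1, hl6⟩ := hl1
    set s := (γ l).1 with hsdef
    set z := (γ l).2 with hzdef
    have hd : ‖Complex.exp (s * Complex.I) * c‖ = 1 := by rw [norm_mul, hc, norm_expI, one_mul]
    have hgz : P.g T z = (Complex.exp (s * Complex.I) * c) • z := by
      have h1 : e s • P.g T z = z := hl1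
      have h2 : (Complex.exp (s * Complex.I) * c) * e s = 1 := by
        rw [he]
        simp only
        rw [mul_mul_mul_comm, ← Complex.exp_add, add_neg_cancel, Complex.exp_zero,
          mul_inv_cancel₀ hc0, one_mul]
      conv_rhs => rw [← h1]
      rw [smul_smul, h2, one_smul]
    have hall := P.per_mem hd hT hgz hl4
    have hy := P.sol_of hall
    have hs0 : s = 0 := by
      refine small_angle hK hl5 hcK (hlock _ _ T hT hy ?_ hd ?_)
      · change ((P.g 0 z : cm m) : Ph n) ∈ U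
        rw [P.hg.zero]; exact hl3
      · intro t
        change ((P.g (t + T) z : cm m) : Ph n) = _
        rw [P.per_smul hd hgz]
        rfl
    refine ⟨hl2, hall, ?_, hl6⟩
    rw [hgz, hs0]
    simp
  obtain ⟨ε, hε0, hε⟩ := Metric.eventually_nhds_iff_ball.mp hgood
  have hl0 : ang m (x 0) ∈ Metric.ball (ang m (x 0)) ε := Metric.mem_ball_self hε0
  have hYsol : ∀ l ∈ Metric.ball (ang m (x 0)) ε,
      IsSol m Set.univ (fun t => ((P.g t (γ l).2 : cm m) : Ph n)) := fun l hl =>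
    P.sol_of (hε l hl).2.1
  have hYper : ∀ l ∈ Metric.ball (ang m (x 0)) ε, ∀ t,
      ((P.g (t + T) (γ l).2 : cm m) : Ph n) = c • ((P.g t (γ l).2 : cm m) : Ph n) := by
    intro l hl t
    rw [P.per_smul hc (hε l hl).2.2.1]
    rfl
  -- the energy is constant
  have hen : ∀ l ∈ Metric.ball (ang m (x 0)) ε,
      HasDerivAt (fun l => energy m ((γ l).2 : Ph n)) 0 l := by
    intro l hl
    have hd1 : HasDerivAt γ (deriv γ l) l :=
      ((hε l hl).1.differentiableAt one_ne_zero).hasDerivAt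
    have hd2 : HasDerivAt (fun l => (γ l).2) (deriv γ l).2 l :=
      (ContinuousLinearMap.snd ℝ ℝ (cm m)).hasFDerivAt.comp_hasDerivAt l hd1
    set v := (deriv γ l).2 with hv
    have h1 : HasDerivAt (fun l => P.g T (γ l).2) (fderiv ℝ (P.g T) (γ l).2 v) l :=
      (P.diff T (γ l).2).comp_hasDerivAt l hd2
    have h2 : HasDerivAt (fun l => c • (γ l).2) (c • v) l := hd2.const_smul c
    have h3 : (fun l => P.g T (γ l).2) =ᶠ[𝓝 l] fun l => c • (γ l).2 := by
      filter_upwards [Metric.isOpen_ball.mem_nhds hl] with l' hl'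
      exact (hε l' hl').2.2.1
    have h4 : fderiv ℝ (P.g T) (γ l).2 v = c • v :=
      (h1.congr_of_eventuallyEq h3.symm).unique h2
    have h5 := energy_zero (hYsol l hl) (hj (hε l hl).2.1 v) hT hc (hYper l hl)
      (hjp (hε l hl).2.2.1 h4) 0
    rw [P.hg.zero, P.D_zero] at h5
    have hne' : ∀ a b, a ≠ b → ((γ l).2 : Ph n).1 a ≠ ((γ l).2 : Ph n).1 b := by
      have := ((hYsol l hl).mem 0).1
      simp only [P.hg.zero] at this
      exact this
    have h6 : HasFDerivAt (energy m) (fderiv ℝ (energy m) ((γ l).2 : Ph n)) ((γ l).2 : Ph n) :=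
      ((contDiffAt_energy' (N := 1) hne').differentiableAt one_ne_zero).hasFDerivAt
    have h7 : HasDerivAt (fun l => ((γ l).2 : Ph n)) (v : Ph n) l :=
      (inc m).hasFDerivAt.comp_hasDerivAt l hd2
    have h8 := h6.comp_hasDerivAt l h7
    rw [h5] at h8
    exact h8
  have hen' : ∀ l ∈ Metric.ball (ang m (x 0)) ε, energy m ((γ l).2 : Ph n) = energy m (x 0) := by
    intro l hl
    have h1 := Metric.isOpen_ball.is_const_of_deriv_eq_zero
      (convex_ball (ang m (x 0)) ε).isPreconnected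
      (fun l hl => (hen l hl).differentiableAt.differentiableWithinAt)
      (fun l hl => (hen l hl).deriv) hl hl0
    rw [hγ0] at h1
    exact h1
  refine ⟨fun l => (γ l).2, ε, hε0, ?_, fun l hl => ⟨?_, (hε l hl).2.1, (hε l hl).2.2.1,
    hen' l hl, (hε l hl).2.2.2⟩⟩
  · simp only [hγ0]
    exact hg
  · exact contDiff_snd.contDiffAt.comp l (hε l hl).1


variable {m : Fin 3 → ℝ}

theorem coreL (hBU : S_BU) (hNT : S_NT) (hm : ∀ a, 0 < m a) {K : ℕ} {U : Set (Ph 3)}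
    (hlk : Lk m K U) {x : ℝ → Ph 3}
    (hx : IsSol m Set.univ x) (hind0 : ∀ a b : ℝ, a • vf m (x 0) + b • (Complex.I • x 0) = 0 → a = 0 ∧ b = 0) (hxU : x 0 ∈ U)
    {P : Pk m} {T : ℝ} (hT : 0 < T) {c : ℂ} (hc : ‖c‖ = 1)
    {γ p1 r1 p2 r2 : ℝ → cm m} {α1 α2 : ℝ → ℝ} {l0 : ℝ}
    (hxP : ∀ t, ((P.g t (γ l0) : cm m) : Ph 3) = x t)
    (hev : ∀ᶠ l in 𝓝 l0, ContDiffAt ℝ 1 γ l ∧
      (∀ t, ((P.g t (γ l) : cm m) : Ph 3) ∈ P.S) ∧ P.g T (γ l) = c • γ l)
    (hL : ome m (Complex.I • (γ l0 : Ph 3)) ((deriv γ l0 : cm m) : Ph 3) ≠ 0)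
    (hcp1 : ContDiffAt ℝ 1 p1 l0) (hcr1 : ContDiffAt ℝ 1 r1 l0) (hca1 : ContDiffAt ℝ 1 α1 l0)
    (hcp2 : ContDiffAt ℝ 1 p2 l0) (hcr2 : ContDiffAt ℝ 1 r2 l0) (hca2 : ContDiffAt ℝ 1 α2 l0)
    (hrel1 : ∀ᶠ l in 𝓝 l0,
      fderiv ℝ (P.g T) (γ l) (p1 l) = c • (Real.cos (α1 l) • p1 l - Real.sin (α1 l) • r1 l) ∧
      fderiv ℝ (P.g T) (γ l) (r1 l) = c • (Real.sin (α1 l) • p1 l + Real.cos (α1 l) • r1 l))
    (hrel2 : ∀ᶠ l in 𝓝 l0,
      fderiv ℝ (P.g T) (γ l) (p2 l) = c • (Real.cos (α2 l) • p2 l - Real.sin (α2 l) • r2 l) ∧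
      fderiv ℝ (P.g T) (γ l) (r2 l) = c • (Real.sin (α2 l) • p2 l + Real.cos (α2 l) • r2 l))
    (hω1 : ome m (p1 l0 : Ph 3) (r1 l0 : Ph 3) ≠ 0) (hω2 : ome m (p2 l0 : Ph 3) (r2 l0 : Ph 3) ≠ 0)
    (hs1 : Real.sin (α1 l0) ≠ 0) (hs2 : Real.sin (α2 l0) ≠ 0)
    (hcc : Real.cos (α1 l0) ≠ Real.cos (α2 l0)) :
    ∀ᶠ l in 𝓝 l0, α1 l = α1 l0 ∧ α2 l = α2 l0 := by
  obtain ⟨ω, hω⟩ := exists_om m
  have hx0 : (γ l0 : Ph 3) = x 0 := by
    rw [← hxP 0, P.hg.zero]
  have hper : ∀ t, x (t + T) = c • x t := by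
    intro t
    rw [← hxP, ← hxP, P.per_smul hc hev.self_of_nhds.2.2]
    rfl
  obtain ⟨hK, hUo, hlock⟩ := hlk
  have hcK : c ^ (2 * K) = 1 := hlock x c T hT hx hxU hc hper
  have hK0 : (0:ℝ) < K := by exact_mod_cast hK
  -- everything near `l0`
  have hγc : ContinuousAt γ l0 := hev.self_of_nhds.1.continuousAt
  have hγcm : ContinuousAt (fun l => ((γ l : cm m) : Ph 3)) l0 :=
    (inc m).continuous.continuousAt.comp hγc
  have hU0 : ∀ᶠ l in 𝓝 l0, ((γ l : cm m) : Ph 3) ∈ U := by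
    refine hγcm.eventually (hUo.mem_nhds ?_)
    change ((γ l0 : cm m) : Ph 3) ∈ U
    rw [hx0]
    exact hxU
  have hne0 : ∀ a b, a ≠ b → ((γ l0 : cm m) : Ph 3).1 a ≠ ((γ l0 : cm m) : Ph 3).1 b := by
    rw [hx0]; exact (hx.mem 0).1
  have hind : ∀ᶠ l in 𝓝 l0, ∀ a b : ℝ,
      a • vf m ((γ l : cm m) : Ph 3) + b • (Complex.I • ((γ l : cm m) : Ph 3)) = 0 →
      a = 0 ∧ b = 0 := by
    have h1 : LinearIndependent ℝ ![vf m ((γ l0 : cm m) : Ph 3), Complex.I • ((γ l0 : cm m) : Ph 3)] := by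
      rw [LinearIndependent.pair_iff]
      intro s t hsu'
      rw [hx0] at hsu'
      exact hind0 s t hsu'
    have h2 : Tendsto (fun l => ![vf m ((γ l : cm m) : Ph 3), Complex.I • ((γ l : cm m) : Ph 3)])
        (𝓝 l0) (𝓝 ![vf m ((γ l0 : cm m) : Ph 3), Complex.I • ((γ l0 : cm m) : Ph 3)]) := by
      have h3 : ContinuousAt (fun l => vf m ((γ l : cm m) : Ph 3)) l0 := by
        have h4 : ContinuousAt (vf m) ((fun l => ((γ l : cm m) : Ph 3)) l0) :=
          (contDiffAt_vf hne0).continuousAt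
        exact ContinuousAt.comp (g := vf m) (f := fun l => ((γ l : cm m) : Ph 3)) h4 hγcm
      have h5 : ContinuousAt (fun l => Complex.I • ((γ l : cm m) : Ph 3)) l0 :=
        (continuous_const_smul Complex.I).continuousAt.comp hγcm
      rw [tendsto_pi_nhds]
      intro i
      fin_cases i
      · exact h3
      · exact h5
    filter_upwards [h2.eventually h1.eventually] with l hl
    exact LinearIndependent.pair_iff.mp hl
  have hωc : ∀ {p r : ℝ → cm m}, ContinuousAt p l0 → ContinuousAt r l0 →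
      ContinuousAt (fun l => ome m (p l : Ph 3) (r l : Ph 3)) l0 := by
    intro p r hp hr
    have h1 : ContinuousAt (fun l => ω (p l) (r l)) l0 :=
      (ω.continuous.continuousAt.comp hp).clm_apply hr
    have h2 : (fun l => ω (p l) (r l)) = fun l => ome m (p l : Ph 3) (r l : Ph 3) :=
      funext fun l => hω _ _
    rwa [h2] at h1
  have hL' : ∀ᶠ l in 𝓝 l0, ome m (Complex.I • (γ l : Ph 3)) ((deriv γ l : cm m) : Ph 3) ≠ 0 := by
    have h1 : ContinuousAt (fun l => Complex.I • γ l) l0 :=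
      (continuous_const_smul Complex.I).continuousAt.comp hγc
    exact (hωc h1 (gen_cd hev.self_of_nhds.1)).eventually_ne hL
  have hw1 := (hωc hcp1.continuousAt hcr1.continuousAt).eventually_ne hω1
  have hw2 := (hωc hcp2.continuousAt hcr2.continuousAt).eventually_ne hω2
  have hsin1 : ∀ᶠ l in 𝓝 l0, Real.sin (α1 l) ≠ 0 :=
    (Real.continuous_sin.continuousAt.comp hca1.continuousAt).eventually_ne hs1
  have hsin2 : ∀ᶠ l in 𝓝 l0, Real.sin (α2 l) ≠ 0 :=
    (Real.continuous_sin.continuousAt.comp hca2.continuousAt).eventually_ne hs2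
  have hcc' : ∀ᶠ l in 𝓝 l0, Real.cos (α1 l) ≠ Real.cos (α2 l) := by
    have h1 : ContinuousAt (fun l => Real.cos (α1 l) - Real.cos (α2 l)) l0 :=
      (Real.continuous_cos.continuousAt.comp hca1.continuousAt).sub
        (Real.continuous_cos.continuousAt.comp hca2.continuousAt)
    filter_upwards [h1.eventually_ne (sub_ne_zero.mpr hcc)] with l hl
    exact sub_ne_zero.mp hl
  have hall : ∀ᶠ l in 𝓝 l0,
      (ContDiffAt ℝ 1 γ l ∧ (∀ᶠ l' in 𝓝 l, P.g T (γ l') = c • γ l') ∧ ((γ l : cm m) : Ph 3) ∈ U ∧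
        ome m (Complex.I • (γ l : Ph 3)) ((deriv γ l : cm m) : Ph 3) ≠ 0) ∧
      (ContDiffAt ℝ 1 p1 l ∧ ContDiffAt ℝ 1 r1 l ∧ ContDiffAt ℝ 1 α1 l ∧
        ContDiffAt ℝ 1 p2 l ∧ ContDiffAt ℝ 1 r2 l ∧ ContDiffAt ℝ 1 α2 l) ∧
      (∀ᶠ l in 𝓝 l,
      fderiv ℝ (P.g T) (γ l) (p1 l) = c • (Real.cos (α1 l) • p1 l - Real.sin (α1 l) • r1 l) ∧
      fderiv ℝ (P.g T) (γ l) (r1 l) = c • (Real.sin (α1 l) • p1 l + Real.cos (α1 l) • r1 l)) ∧
      (∀ᶠ l in 𝓝 l,
      fderiv ℝ (P.g T) (γ l) (p2 l) = c • (Real.cos (α2 l) • p2 l - Real.sin (α2 l) • r2 l) ∧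
      fderiv ℝ (P.g T) (γ l) (r2 l) = c • (Real.sin (α2 l) • p2 l + Real.cos (α2 l) • r2 l)) ∧
      EP P T c (γ l) (p1 l) (r1 l) (p2 l) (r2 l) (α1 l) (α2 l) := by
    filter_upwards [hev, (hev.mono fun l hl => hl.2.2).eventually_nhds, hU0, hL',
      hcp1.eventually (by simp), hcr1.eventually (by simp), hca1.eventually (by simp),
      hcp2.eventually (by simp), hcr2.eventually (by simp), hca2.eventually (by simp),
      hrel1.eventually_nhds, hrel2.eventually_nhds, hw1, hw2, hsin1, hsin2, hcc', hind]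
      with l a1 a2 a3 a4 a5 a6 a7 a8 a9 a10 a11 a12 a13 a14 a15 a16 a17 a18
    exact ⟨⟨a1.1, a2, a3, a4⟩, ⟨a5, a6, a7, a8, a9, a10⟩, a11, a12,
      ⟨a1.2.1, a1.2.2, a11.self_of_nhds.1, a11.self_of_nhds.2, a12.self_of_nhds.1,
        a12.self_of_nhds.2, a13, a14, a15, a16, a17, a18⟩⟩
  obtain ⟨A, B, hA, hB, hAB⟩ := exI hall
  -- no bifurcation
  have nobif : ∀ (l : ℝ), (∀ t, ((P.g t (γ l) : cm m) : Ph 3) ∈ P.S) → ((γ l : cm m) : Ph 3) ∈ U →
      ∀ q : ℕ, 1 ≤ q → ¬ ∀ δ : ℝ, 0 < δ → ∃ (s : ℝ) (z : cm m), s ≠ 0 ∧ |s| < δ ∧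
        ‖z - γ l‖ < δ ∧ P.g (q * T) z = (Complex.exp (s * Complex.I) * c ^ q) • z := by
    intro l hlS hlU q hq hbif
    have hq0 : (0:ℝ) < q := by exact_mod_cast hq
    have hqT : 0 < (q : ℝ) * T := by positivity
    have hnear := P.near (z0 := γ l) (T := q * T) (fun t _ => hlS t)
    have hU1 : ∀ᶠ z : cm m in 𝓝 (γ l), (z : Ph 3) ∈ U :=
      (inc m).continuous.continuousAt.eventually (hUo.mem_nhds hlU)
    obtain ⟨ε, hε, hball⟩ := Metric.eventually_nhds_iff_ball.mp (hnear.and hU1)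
    have hpi : 0 < Real.pi / K := by positivity
    obtain ⟨s, z, hs0, hs1, hz, hgz⟩ := hbif (min ε (Real.pi / K)) (lt_min hε hpi)
    have hzb : z ∈ Metric.ball (γ l) ε := by
      rw [Metric.mem_ball, dist_eq_norm]
      exact lt_of_lt_of_le hz (min_le_left _ _)
    obtain ⟨hz1, hz2⟩ := hball z hzb
    have hcq : ‖c ^ q‖ = 1 := by rw [norm_pow, hc, one_pow]
    have hd : ‖Complex.exp (s * Complex.I) * c ^ q‖ = 1 := by
      rw [norm_mul, hcq, norm_expI, one_mul]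
    have hallz := P.per_mem hd hqT hgz hz1
    have hy := P.sol_of hallz
    apply hs0
    have hcqK : (c ^ q) ^ (2 * K) = 1 := by
      rw [← pow_mul, mul_comm, pow_mul, hcK, one_pow]
    refine small_angle hK (lt_of_lt_of_le hs1 (min_le_right _ _)) hcqK
      (hlock _ _ (q * T) hqT hy ?_ hd ?_)
    · change ((P.g 0 z : cm m) : Ph 3) ∈ U
      rw [P.hg.zero]; exact hz2
    · intro t
      change ((P.g (t + q * T) z : cm m) : Ph 3) = _
      rw [P.per_smul hd hgz]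
      rfl
  have h2pi : (2 * Real.pi) ≠ 0 := by positivity
  have hint : ∀ (q : ℕ) (α : ℝ), (∃ k : ℤ, q * (α / (2 * Real.pi)) = k) ↔
      Real.cos (q * α) = 1 := by
    intro q α
    rw [Real.cos_eq_one_iff]
    constructor
    · rintro ⟨k, hk⟩
      refine ⟨k, ?_⟩
      rw [← hk]
      field_simp
    · rintro ⟨k, hk⟩
      refine ⟨k, ?_⟩
      rw [← mul_div_assoc, ← hk]
      field_simp
  have hsn : ∀ α : ℝ, Real.sin α ≠ 0 → ∀ k : ℤ, α / (2 * Real.pi) ≠ k := by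
    intro α hα k hk
    apply hα
    have h1 : α = k * (2 * Real.pi) := by
      rw [← hk]; field_simp
    rw [h1]
    have := Real.sin_int_mul_pi (2 * k)
    push_cast at this
    rw [show (k:ℝ) * (2 * Real.pi) = 2 * k * Real.pi by ring]
    exact this
  have key := res_two hNT (A := A) (B := B) (f := fun l => α1 l / (2 * Real.pi))
    (g := fun l => α2 l / (2 * Real.pi)) ?_ ?_ ?_ ?_ ?_ ?_ ?_
  · filter_upwards [Ioo_mem_nhds hA hB] with l hl
    obtain ⟨k1, k2⟩ := key l hl l0 ⟨hA, hB⟩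
    constructor
    · have k1' : α1 l / (2 * Real.pi) = α1 l0 / (2 * Real.pi) := k1
      field_simp at k1'
      linarith
    · have k2' : α2 l / (2 * Real.pi) = α2 l0 / (2 * Real.pi) := k2
      field_simp at k2'
      linarith
  · intro l hl
    exact (hAB l ⟨hl.1.le, hl.2.le⟩).2.1.2.2.1.div_const _
  · intro l hl
    exact (hAB l ⟨hl.1.le, hl.2.le⟩).2.1.2.2.2.2.2.div_const _
  · intro l hl k
    have hE := (hAB l ⟨hl.1.le, hl.2.le⟩).2.2.2.2
    constructor
    · intro h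
      apply hE.hcc
      have h1 : α1 l = k * (2 * Real.pi) - α2 l := by
        have h2 : α1 l / (2 * Real.pi) + α2 l / (2 * Real.pi) = k := h
        rw [← h2]; field_simp; ring
      rw [h1, Real.cos_int_mul_two_pi_sub]
    · intro h
      apply hE.hcc
      have h1 : α1 l = α2 l + k * (2 * Real.pi) := by
        have h2 : α1 l / (2 * Real.pi) - α2 l / (2 * Real.pi) = k := h
        rw [← h2]; field_simp; ring
      rw [h1, Real.cos_add_int_mul_two_pi]
  · intro l hl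
    exact hsn _ (hAB l ⟨hl.1.le, hl.2.le⟩).2.2.2.2.hs1
  · intro l hl
    exact hsn _ (hAB l ⟨hl.1.le, hl.2.le⟩).2.2.2.2.hs2
  · intro l hl hd q hq hk
    obtain ⟨⟨b1, b2, b3, b4⟩, ⟨b5, b6, b7, b8, b9, b10⟩, b11, b12, b13⟩ := hAB l ⟨hl.1.le, hl.2.le⟩
    rw [hint] at hk ⊢
    by_contra hne
    have hd' : deriv α1 l ≠ 0 := by
      intro h
      apply hd
      rw [deriv_div_const, h, zero_div]
    exact nobif l b13.hS b3 q hq (ep_bif hBU hm hT hc b1
      (b1.differentiableAt one_ne_zero).hasDerivAt b2 b4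
      (b5.differentiableAt one_ne_zero).hasDerivAt (b6.differentiableAt one_ne_zero).hasDerivAt
      (b7.differentiableAt one_ne_zero).hasDerivAt hd' b11 b13 hq hk hne)
  · intro l hl hd q hq hk
    obtain ⟨⟨b1, b2, b3, b4⟩, ⟨b5, b6, b7, b8, b9, b10⟩, b11, b12, b13⟩ := hAB l ⟨hl.1.le, hl.2.le⟩
    rw [hint] at hk ⊢
    by_contra hne
    have hd' : deriv α2 l ≠ 0 := by
      intro h
      apply hd
      rw [deriv_div_const, h, zero_div]
    exact nobif l b13.hS b3 q hq (ep_bif hBU hm hT hc b1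
      (b1.differentiableAt one_ne_zero).hasDerivAt b2 b4
      (b8.differentiableAt one_ne_zero).hasDerivAt (b9.differentiableAt one_ne_zero).hasDerivAt
      (b10.differentiableAt one_ne_zero).hasDerivAt hd' b12 b13.swap hq hk hne)

end Pool.Agent.D0H95.GL
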