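import Pool.Agent.D0H95.GL.Fin

/-!
The planar `n`-body problem: analytic families through the neighbourhood of a stable orbit have constant
rotation and constant scaled period.
-/

set_option autoImplicit false

namespace Pool.Agent.D0H95.GN

open Pool.Agent.W821.TB Pool.Agent.D0H95.NB Pool.Agent.D0H95.BF Filter Topology Set
open Pool.Agent.D0H95.GL (Lk ana_prop freq_zero roots_finite lk_stable lk_degenerate isoL)

variable {n : ℕ} {m : Fin n → ℝ}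

/-- A true solution agrees with the cut-off flow as long as the latter stays in the region. -/
theorem eq_flow (P : Pk m) {y : ℝ → Ph n} (hy : IsSol m Set.univ y) {z : cm m}
    (h0 : y 0 = (z : Ph n)) {T : ℝ} (hS : ∀ t ∈ Icc 0 T, ((P.g t z : cm m) : Ph n) ∈ P.S) :
    ∀ t ∈ Icc 0 T, y t = ((P.g t z : cm m) : Ph n) := by
  have hgc : Continuous (fun t => ((P.g t z : cm m) : Ph n)) :=
    (inc m).continuous.comp (P.hg.continuous z)
  have hcl : IsClosed ({t | y t = ((P.g t z : cm m) : Ph n)} ∩ Icc 0 T) :=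
    (isClosed_eq hy.continuous hgc).inter isClosed_Icc
  have key := hcl.Icc_subset_of_forall_mem_nhdsWithin (a := 0) (b := T)
    (by change y 0 = ((P.g 0 z : cm m) : Ph n); rw [P.hg.zero, h0]) ?_
  · exact fun t ht => key ht
  · rintro t ⟨ht, ht1⟩
    have htS : ((P.g t z : cm m) : Ph n) ∈ P.S := hS t ⟨ht1.1, ht1.2.le⟩
    have hO : IsOpen (P.S : Set (Ph n)) := isOpen_Rg P.R P.δ
    obtain ⟨K, s, hs, hL⟩ := (contDiffAt_vf (m := m) (hy.mem t).1).exists_lipschitzOnWith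
    have ht' : y t = ((P.g t z : cm m) : Ph n) := ht
    have h1 : ∀ᶠ u in 𝓝 t, y u ∈ s := hy.continuous.continuousAt hs
    have h2 : ∀ᶠ u in 𝓝 t, ((P.g u z : cm m) : Ph n) ∈ s :=
      hgc.continuousAt (by rw [← ht']; exact hs)
    have h3 : ∀ᶠ u in 𝓝 t, ((P.g u z : cm m) : Ph n) ∈ P.S := hgc.continuousAt (hO.mem_nhds htS)
    have hf : ∀ᶠ u in 𝓝 t, HasDerivAt y ((fun (_ : ℝ) => vf m) u (y u)) u ∧
        y u ∈ (fun _ : ℝ => s) u := h1.mono fun u hu => ⟨hy.hasDerivAt u, hu⟩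
    have hg : ∀ᶠ u in 𝓝 t, HasDerivAt (fun t => ((P.g t z : cm m) : Ph n))
        ((fun (_ : ℝ) => vf m) u ((P.g u z : cm m) : Ph n)) u ∧
        ((P.g u z : cm m) : Ph n) ∈ (fun _ : ℝ => s) u := by
      filter_upwards [h2, h3] with u hu hu3
      exact ⟨P.deriv_coe hu3, hu⟩
    have h4 := ODE_solution_unique_of_eventually (Eventually.of_forall fun _ => hL) hf hg ht'
    exact mem_nhdsWithin_of_mem_nhds h4

/-- Near a member of a family of relative periodic solutions the family is given by the cut-off flow. -/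
theorem loc {T : ℝ} (hT : 0 < T) {Y : ℝ → ℝ → Ph n} {c : ℝ → ℂ} {γ : ℝ → cm m} {J : Set ℝ}
    (hJ : IsOpen J)
    (hY : ∀ s ∈ J, IsSol m Set.univ (Y s) ∧ ‖c s‖ = 1 ∧ (∀ t, Y s (t + T) = c s • Y s t) ∧
      Y s 0 = (γ s : Ph n)) {s0 : ℝ} (hs0 : s0 ∈ J) (hγ : ContinuousAt γ s0) :
    ∃ P : Pk m, ∀ᶠ s in 𝓝 s0, s ∈ J ∧ (∀ t, ((P.g t (γ s) : cm m) : Ph n) = Y s t) ∧
      (∀ t, ((P.g t (γ s) : cm m) : Ph n) ∈ P.S) ∧ P.g T (γ s) = c s • γ s := by
  obtain ⟨h1, h2, h3, h4⟩ := hY s0 hs0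
  obtain ⟨R, δ, hR0, hδ, hRg⟩ := exists_region h1 hT h2 h3
  obtain ⟨P, hPR, hPδ⟩ := exists_pk m hR0 hδ
  have hxS : ∀ t, Y s0 t ∈ P.S := by
    intro t
    unfold Pk.S
    rw [hPR, hPδ]
    exact hRg t
  have hz : (⟨Y s0 0, sol_cm h1 0⟩ : cm m) = γ s0 := Subtype.ext h4
  have hg : ∀ t, ((P.g t (γ s0) : cm m) : Ph n) = Y s0 t := by
    intro t
    rw [← hz]
    exact P.of_sol h1 hxS t
  have hS0 : ∀ t, ((P.g t (γ s0) : cm m) : Ph n) ∈ P.S := fun t => by rw [hg]; exact hxS t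
  have hnear := P.near (z0 := γ s0) (T := T) (fun t _ => hS0 t)
  refine ⟨P, ?_⟩
  filter_upwards [hγ.eventually hnear, hJ.mem_nhds hs0] with s hs hsJ
  obtain ⟨k1, k2, k3, k4⟩ := hY s hsJ
  have e1 := eq_flow P k1 k4 hs
  have e2 : P.g T (γ s) = c s • γ s := by
    apply Subtype.ext
    rw [← e1 T ⟨hT.le, le_rfl⟩]
    have := k3 0
    rw [zero_add] at this
    rw [this, k4]
    rfl
  have e3 : ∀ t, ((P.g t (γ s) : cm m) : Ph n) ∈ P.S := fun t => P.per_mem k2 hT e2 hs t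
  have e4 : (fun t => ((P.g t (γ s) : cm m) : Ph n)) = Y s :=
    sol_unique (P.sol_of e3) k1 (t₀ := 0) (by simp only [P.hg.zero]; exact k4.symm)
  exact ⟨hsJ, fun t => congrFun e4 t, e3, e2⟩

/-- The cut-off flow is analytic along orbits in the region. -/
theorem an_flow (hNEM : S_NEM) (hAFL : S_NEM → S_AFL) (hXAN : S_XAN) (P : Pk m) {T : ℝ} (hT : 0 ≤ T)
    {z : cm m} (hS : ∀ t, ((P.g t z : cm m) : Ph n) ∈ P.S) : AnalyticAt ℝ (P.g T) z :=
  hAFL hNEM (cm m) P.X P.K P.g P.hK P.hg T z hT fun t _ => hXAN n m P.R P.δ P.hR P.hδ _ (hS t)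

/-- An analytic family of relative periodic solutions with the same `T`. -/
structure Fam (m : Fin n → ℝ) (a b T : ℝ) (Y : ℝ → ℝ → Ph n) (c : ℝ → ℂ) (γ : ℝ → cm m) : Prop where
  hY : ∀ s ∈ Ioo a b, IsSol m Set.univ (Y s) ∧ ‖c s‖ = 1 ∧ (∀ t, Y s (t + T) = c s • Y s t) ∧
      Y s 0 = (γ s : Ph n)
  hγ : ∀ s ∈ Ioo a b, AnalyticAt ℝ γ s

section

variable {a b T : ℝ} {Y : ℝ → ℝ → Ph n} {c : ℝ → ℂ} {γ : ℝ → cm m}

theorem Fam.loc (h : Fam m a b T Y c γ) (hT : 0 < T) {s0 : ℝ} (hs0 : s0 ∈ Ioo a b) :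
    ∃ P : Pk m, ∀ᶠ s in 𝓝 s0, s ∈ Ioo a b ∧ (∀ t, ((P.g t (γ s) : cm m) : Ph n) = Y s t) ∧
      (∀ t, ((P.g t (γ s) : cm m) : Ph n) ∈ P.S) ∧ P.g T (γ s) = c s • γ s :=
  GN.loc hT isOpen_Ioo h.hY hs0 (h.hγ s0 hs0).continuousAt

/-- The rotation is locally constant where the rotations are locked. -/
theorem Fam.c_loc (hn : 2 ≤ n) (h : Fam m a b T Y c γ) (hT : 0 < T) {K : ℕ} {U : Set (Ph n)} (hlk : Lk m K U)
    {s0 : ℝ} (hs0 : s0 ∈ Ioo a b) (hU0 : Y s0 0 ∈ U) : ∀ᶠ s in 𝓝 s0, c s = c s0 := by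
  obtain ⟨P, hP⟩ := h.loc hT hs0
  obtain ⟨hK, hUo, hU⟩ := hlk
  have hγc : ContinuousAt (fun s => ((γ s : cm m) : Ph n)) s0 :=
    (inc m).continuous.continuousAt.comp (h.hγ s0 hs0).continuousAt
  have hgc : ContinuousAt (fun s => ((P.g T (γ s) : cm m) : Ph n)) s0 := by
    have h1 : Continuous (P.g T) := (P.cd_t T).continuous
    exact (inc m).continuous.continuousAt.comp
      (h1.continuousAt.comp (h.hγ s0 hs0).continuousAt)
  obtain ⟨i, hi⟩ := exists_ne_zero hn ((h.hY s0 hs0).1.mem 0)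
  rw [(h.hY s0 hs0).2.2.2] at hi
  have e1 : ContinuousAt (fun s => ((γ s : cm m) : Ph n).1 i) s0 :=
    ((continuous_apply i).comp continuous_fst).continuousAt.comp hγc
  have e2 : ContinuousAt (fun s => ((P.g T (γ s) : cm m) : Ph n).1 i) s0 :=
    ((continuous_apply i).comp continuous_fst).continuousAt.comp hgc
  have e3 := e2.div e1 hi
  have e4 : ∀ᶠ s in 𝓝 s0, ((γ s : cm m) : Ph n).1 i ≠ 0 := e1.eventually_ne hi
  have e5 : ∀ᶠ s in 𝓝 s0, ((P.g T (γ s) : cm m) : Ph n).1 i / ((γ s : cm m) : Ph n).1 i = c s := by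
    filter_upwards [hP, e4] with s hs1 hs2
    rw [hs1.2.2.2]
    change c s * ((γ s : cm m) : Ph n).1 i / ((γ s : cm m) : Ph n).1 i = c s
    rw [mul_div_assoc, div_self hs2, mul_one]
  have e6 : Tendsto c (𝓝 s0) (𝓝 (c s0)) := by
    have e7 := e3.tendsto.congr' e5
    have e8 : ((P.g T (γ s0) : cm m) : Ph n).1 i / ((γ s0 : cm m) : Ph n).1 i = c s0 :=
      e5.self_of_nhds
    simp only [Pi.div_apply] at e7
    rwa [e8] at e7
  have hUe : ∀ᶠ s in 𝓝 s0, ((γ s : cm m) : Ph n) ∈ U := by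
    refine hγc.eventually (hUo.mem_nhds ?_)
    change ((γ s0 : cm m) : Ph n) ∈ U
    rw [← (h.hY s0 hs0).2.2.2]
    exact hU0
  have hF : IsClosed ({d : ℂ | d ^ (2 * K) = 1} \ {c s0}) :=
    ((roots_finite hK).subset Set.sdiff_subset).isClosed
  have e9 : ∀ᶠ s in 𝓝 s0, c s ∈ ({d : ℂ | d ^ (2 * K) = 1} \ {c s0})ᶜ :=
    e6.eventually (hF.isOpen_compl.mem_nhds (fun hh => hh.2 rfl))
  filter_upwards [hP, hUe, e9] with s k1 k2 k3
  obtain ⟨f1, f2, f3, f4⟩ := h.hY s k1.1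
  have k4 : c s ^ (2 * K) = 1 := hU (Y s) (c s) T hT f1 (by rw [f4]; exact k2) f2 f3
  by_contra hne
  exact k3 ⟨k4, hne⟩

/-- The rotation is constant on the family. -/
theorem Fam.c_all (hn : 2 ≤ n) (hNEM : S_NEM) (hAFL : S_NEM → S_AFL) (hXAN : S_XAN) (h : Fam m a b T Y c γ)
    (hT : 0 < T) {K : ℕ} {U : Set (Ph n)} (hlk : Lk m K U)
    {s0 : ℝ} (hs0 : s0 ∈ Ioo a b) (hU0 : Y s0 0 ∈ U) {s : ℝ} (hs : s ∈ Ioo a b) : c s = c s0 := by
  have key := ana_prop hs0 (Q := fun s => c s = c s0) (h.c_loc hn hT hlk hs0 hU0) ?_ s hs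
  · exact key.self_of_nhds
  · intro s1 hs1 hfr
    obtain ⟨P, hP⟩ := h.loc hT hs1
    set F : ℝ → cm m := fun s => P.g T (γ s) - rotL m (c s0) (γ s) with hF
    have hFa : AnalyticAt ℝ F s1 := by
      have h1 : AnalyticAt ℝ (fun s => P.g T (γ s)) s1 :=
        (an_flow hNEM hAFL hXAN P hT.le hP.self_of_nhds.2.2.1).comp (h.hγ s1 hs1)
      have h2 : AnalyticAt ℝ (fun s => rotL m (c s0) (γ s)) s1 :=
        ((rotL m (c s0)).analyticAt _).comp (h.hγ s1 hs1)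
      exact h1.sub h2
    have hP' : ∀ᶠ s in 𝓝[≠] s1, s ∈ Ioo a b ∧ (∀ t, ((P.g t (γ s) : cm m) : Ph n) = Y s t) ∧
      (∀ t, ((P.g t (γ s) : cm m) : Ph n) ∈ P.S) ∧ P.g T (γ s) = c s • γ s :=
      hP.filter_mono nhdsWithin_le_nhds
    have h3 : ∃ᶠ s in 𝓝[≠] s1, F s = 0 := by
      refine (hfr.and_eventually hP').mono fun s hs => ?_
      obtain ⟨h4, h5⟩ := hs
      have h4' : c s = c s0 := h4
      rw [hF]
      simp only
      rw [h5.2.2.2, h4', rotL_apply, sub_self]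
    filter_upwards [freq_zero hFa h3, hP] with s h4 h5
    have h7 : P.g T (γ s) - rotL m (c s0) (γ s) = 0 := h4
    rw [h5.2.2.2, rotL_apply] at h7
    have h8 : c s • γ s = c s0 • γ s := sub_eq_zero.mp h7
    obtain ⟨i, hi⟩ := exists_ne_zero hn ((h.hY s h5.1).1.mem 0)
    rw [(h.hY s h5.1).2.2.2] at hi
    have h9 : c s * (γ s : Ph n).1 i = c s0 * (γ s : Ph n).1 i :=
      congrArg (fun z : cm m => (z : Ph n).1 i) h8
    exact mul_right_cancel₀ hi h9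

/-- The energy is constant if the rotation is. -/
theorem Fam.energy_all (h : Fam m a b T Y c γ) (hT : 0 < T) {c0 : ℂ}
    (hc : ∀ s ∈ Ioo a b, c s = c0) {s s0 : ℝ} (hs : s ∈ Ioo a b) (hs0 : s0 ∈ Ioo a b) :
    energy m (γ s : Ph n) = energy m (γ s0 : Ph n) := by
  have hen : ∀ s ∈ Ioo a b, HasDerivAt (fun s => energy m (γ s : Ph n)) 0 s := by
    intro s hs
    obtain ⟨P, hP⟩ := h.loc hT hs
    have hc0 : ‖c0‖ = 1 := by rw [← hc s hs]; exact (h.hY s hs).2.1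
    have hd1 : HasDerivAt γ (deriv γ s) s := (h.hγ s hs).differentiableAt.hasDerivAt
    have h1 : HasDerivAt (fun l => P.g T (γ l)) (fderiv ℝ (P.g T) (γ s) (deriv γ s)) s :=
      (P.diff T (γ s)).comp_hasDerivAt s hd1
    have h2 : HasDerivAt (fun l => c0 • γ l) (c0 • deriv γ s) s := hd1.const_smul c0
    have h3 : (fun l => P.g T (γ l)) =ᶠ[𝓝 s] fun l => c0 • γ l := by
      filter_upwards [hP] with l hl
      rw [hl.2.2.2, hc l hl.1]
    have h4 : fderiv ℝ (P.g T) (γ s) (deriv γ s) = c0 • deriv γ s :=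
      (h1.congr_of_eventuallyEq h3.symm).unique h2
    have h5 := dE_zero P hP.self_of_nhds.2.2.1 hT hc0 h3.self_of_nhds h4
    have hne' : ∀ a b, a ≠ b → (γ s : Ph n).1 a ≠ (γ s : Ph n).1 b := by
      rw [← (h.hY s hs).2.2.2]
      exact ((h.hY s hs).1.mem 0).1
    have h6 : HasFDerivAt (energy m) (fderiv ℝ (energy m) (γ s : Ph n)) (γ s : Ph n) :=
      ((contDiffAt_energy' (N := 1) hne').differentiableAt one_ne_zero).hasFDerivAt
    have h7 : HasDerivAt (fun l => ((γ l : cm m) : Ph n)) ((deriv γ s : cm m) : Ph n) s :=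
      (inc m).hasFDerivAt.comp_hasDerivAt s hd1
    have h8 := h6.comp_hasDerivAt s h7
    rw [fderiv_energy hne', h5] at h8
    exact h8
  exact isOpen_Ioo.is_const_of_deriv_eq_zero isPreconnected_Ioo
    (fun l hl => (hen l hl).differentiableAt.differentiableWithinAt)
    (fun l hl => (hen l hl).deriv) hs hs0

end

/-- The scaling of phase space. -/
noncomputable def Sr (r : ℝ) : Ph n →L[ℝ] Ph n :=
  ((r ^ 2)⁻¹ • ContinuousLinearMap.fst ℝ (Fin n → ℂ) (Fin n → ℂ)).prod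
    (r • ContinuousLinearMap.snd ℝ (Fin n → ℂ) (Fin n → ℂ))

theorem Sr_apply (r : ℝ) (z : Ph n) : Sr r z = ((r ^ 2)⁻¹ • z.1, r • z.2) := rfl

theorem Sr_smul (r : ℝ) (c : ℂ) (z : Ph n) : Sr r (c • z) = c • Sr r z := by
  rw [Sr_apply, Sr_apply]
  refine Prod.ext ?_ ?_
  · change (r ^ 2)⁻¹ • (c • z.1) = c • ((r ^ 2)⁻¹ • z.1)
    rw [smul_comm]
  · change r • (c • z.2) = c • (r • z.2)
    rw [smul_comm]

theorem Sr_inv {r : ℝ} (hr : 0 < r) (z : Ph n) : Sr r⁻¹ (Sr r z) = z := by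
  rw [Sr_apply, Sr_apply]
  have hr0 := hr.ne'
  refine Prod.ext ?_ ?_
  · change ((r⁻¹) ^ 2)⁻¹ • ((r ^ 2)⁻¹ • z.1) = z.1
    rw [smul_smul, inv_pow, inv_inv, mul_inv_cancel₀ (pow_ne_zero 2 hr0), one_smul]
  · change r⁻¹ • (r • z.2) = z.2
    rw [smul_smul, inv_mul_cancel₀ hr0, one_smul]

theorem Sr_one (z : Ph n) : Sr 1 z = z := by
  rw [Sr_apply]; simp

theorem vf_Sr {r : ℝ} (hr : 0 < r) (z : Ph n) : vf m (Sr r z) = r ^ 3 • Sr r (vf m z) := by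
  rw [Sr_apply, vf_scale z hr, Sr_apply]
  have hr0 := hr.ne'
  refine Prod.ext ?_ ?_
  · change r • z.2 = r ^ 3 • ((r ^ 2)⁻¹ • z.2)
    rw [smul_smul]
    congr 1
    field_simp
  · change r ^ 4 • acc m z.1 = r ^ 3 • (r • acc m z.1)
    rw [smul_smul]
    congr 1

theorem Sr_mem {r : ℝ} (hr : 0 < r) {z : Ph n} (hz : z ∈ phaseSpace m) : Sr r z ∈ phaseSpace m := by
  obtain ⟨h1, h2, h3⟩ := hz
  have hr2 : (r ^ 2)⁻¹ ≠ 0 := by positivity
  refine ⟨fun a b hab h => h1 a b hab ?_, ?_, ?_⟩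
  · have h4 : (r ^ 2)⁻¹ • z.1 a = (r ^ 2)⁻¹ • z.1 b := h
    exact smul_right_injective ℂ hr2 h4
  · have h4 : ∑ a, (m a : ℂ) * (Sr r z).1 a = (r ^ 2)⁻¹ • ∑ a, (m a : ℂ) * z.1 a := by
      rw [Finset.smul_sum]
      refine Finset.sum_congr rfl fun a _ => ?_
      change (m a : ℂ) * ((r ^ 2)⁻¹ • z.1 a) = _
      rw [mul_smul_comm]
    rw [h4, h2, smul_zero]
  · have h4 : ∑ a, (m a : ℂ) * (Sr r z).2 a = r • ∑ a, (m a : ℂ) * z.2 a := by
      rw [Finset.smul_sum]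
      refine Finset.sum_congr rfl fun a _ => ?_
      change (m a : ℂ) * (r • z.2 a) = _
      rw [mul_smul_comm]
    rw [h4, h3, smul_zero]

/-- The scaled curve. -/
noncomputable def Sc (r : ℝ) (x : ℝ → Ph n) (t : ℝ) : Ph n := Sr r (x (r ^ 3 * t))

theorem Sc_inv {r : ℝ} (hr : 0 < r) (x : ℝ → Ph n) : Sc r⁻¹ (Sc r x) = x := by
  funext t
  unfold Sc
  rw [Sr_inv hr, ← mul_assoc, ← mul_pow, mul_inv_cancel₀ hr.ne', one_pow, one_mul]

theorem Sc_one (x : ℝ → Ph n) : Sc 1 x = x := by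
  funext t
  unfold Sc
  rw [Sr_one]; simp

theorem Sc_deriv {r : ℝ} {x : ℝ → Ph n} {v : Ph n} {t : ℝ} (h : HasDerivAt x v (r ^ 3 * t)) :
    HasDerivAt (Sc r x) (r ^ 3 • Sr r v) t := by
  have h1 : HasDerivAt (fun t : ℝ => r ^ 3 * t) (r ^ 3) t := by
    simpa using (hasDerivAt_id t).const_mul (r ^ 3)
  have h2 := h.scomp t h1
  have h3 := (Sr r).hasFDerivAt.comp_hasDerivAt t h2
  rw [map_smul] at h3
  exact h3

theorem Sc_sol {r : ℝ} (hr : 0 < r) {x : ℝ → Ph n} (hx : IsSol m Set.univ x) :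
    IsSol m Set.univ (Sc r x) := by
  refine isSol_of (fun t => Sr_mem hr (hx.mem _)) (fun t => ?_)
  have h1 := Sc_deriv (r := r) (hx.hasDerivAt (r ^ 3 * t))
  have h2 : r ^ 3 • Sr r ((x (r ^ 3 * t)).2, acc m (x (r ^ 3 * t)).1) = vf m (Sc r x t) :=
    (vf_Sr hr _).symm
  rw [h2] at h1
  exact h1

theorem Sc_per {r : ℝ} {x : ℝ → Ph n} {c : ℂ} {τ T : ℝ} (h : ∀ t, x (t + τ) = c • x t)
    (hT : r ^ 3 * T = τ) (t : ℝ) : Sc r x (t + T) = c • Sc r x t := by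
  unfold Sc
  rw [mul_add, hT, h, Sr_smul]

theorem energy_Sr {r : ℝ} (hr : 0 < r) (z : Ph n) : energy m (Sr r z) = r ^ 2 * energy m z := by
  unfold energy
  rw [mul_sub]
  congr 1
  · rw [← mul_div_assoc, Finset.mul_sum]
    congr 1
    refine Finset.sum_congr rfl fun a _ => ?_
    have : (Sr r z).2 a = r • z.2 a := rfl
    rw [this, norm_smul, Real.norm_of_nonneg hr.le]
    ring
  · unfold upot
    rw [← mul_div_assoc, Finset.mul_sum]
    congr 1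
    refine Finset.sum_congr rfl fun a _ => ?_
    rw [Finset.mul_sum]
    refine Finset.sum_congr rfl fun b _ => ?_
    have h1 : (Sr r z).1 b - (Sr r z).1 a = (r ^ 2)⁻¹ • (z.1 b - z.1 a) := by
      change (r ^ 2)⁻¹ • z.1 b - (r ^ 2)⁻¹ • z.1 a = _
      rw [smul_sub]
    rw [h1, norm_smul, Real.norm_of_nonneg (by positivity)]
    have hr0 := hr.ne'
    by_cases hz : ‖z.1 b - z.1 a‖ = 0
    · rw [hz]; simp
    · field_simp

end Pool.Agent.D0H95.GN
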