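import Pool.Agent.D0H95.GL.Nb

/-!
The planar `n`-body problem: relative periodic solutions near a stable orbit, the final theorem.
-/

set_option autoImplicit false

namespace Pool.Agent.D0H95.GN

open Pool.Agent.W821.TB Pool.Agent.D0H95.NB Pool.Agent.D0H95.BF Filter Topology Set
open Pool.Agent.D0H95.GL (Lk ana_prop freq_zero roots_finite lk_stable lk_degenerate isoL)

variable {n : ℕ} {m : Fin n → ℝ}

theorem lock_var (hn : 2 ≤ n) (hNEM : S_NEM) (hAFL : S_NEM → S_AFL)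
    (hXAN : S_XAN) {K : ℕ} {U : Set (Ph n)} (hlk : Lk m K U)
    {a b : ℝ} {Y : ℝ → ℝ → Ph n} {τ : ℝ → ℝ} {d : ℝ → ℂ}
    (hYa : AnalyticOnNhd ℝ (fun s => Y s 0) (Ioo a b)) (hτa : AnalyticOnNhd ℝ τ (Ioo a b))
    (hY : ∀ s ∈ Ioo a b, IsSol m Set.univ (Y s) ∧ 0 < τ s ∧ ‖d s‖ = 1 ∧
      ∀ t, Y s (t + τ s) = d s • Y s t)
    {s0 : ℝ} (hs0 : s0 ∈ Ioo a b) (hU0 : Y s0 0 ∈ U) {s : ℝ} (hs : s ∈ Ioo a b) :
    d s = d s0 ∧ energy m (Y s 0) ^ 3 * τ s ^ 2 = energy m (Y s0 0) ^ 3 * τ s0 ^ 2 := by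
  have hT : 0 < τ s0 := (hY s0 hs0).2.1
  obtain ⟨T, hTe⟩ : ∃ T, T = τ s0 := ⟨_, rfl⟩
  rw [← hTe] at hT ⊢
  obtain ⟨r, hr⟩ : ∃ r : ℝ → ℝ, r = fun s => Real.exp ((1 / 3 : ℝ) * Real.log (T⁻¹ * τ s)) :=
    ⟨_, rfl⟩
  have hr0 : ∀ s, 0 < r s := by
    intro s
    rw [hr]
    exact Real.exp_pos _
  have hpos : ∀ s ∈ Ioo a b, 0 < T⁻¹ * τ s := fun s hs => mul_pos (inv_pos.mpr hT) (hY s hs).2.1
  have hr3 : ∀ s ∈ Ioo a b, r s ^ 3 * T = τ s := by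
    intro s hs
    rw [hr]
    simp only
    rw [← Real.exp_nat_mul, ← mul_assoc]
    norm_num
    rw [Real.exp_log (hpos s hs)]
    field_simp
  have hr1 : r s0 = 1 := by
    rw [hr]
    simp only
    rw [← hTe, inv_mul_cancel₀ hT.ne', Real.log_one, mul_zero, Real.exp_zero]
  have hra : ∀ s ∈ Ioo a b, AnalyticAt ℝ r s := by
    intro s hs
    rw [hr]
    have h3 : AnalyticAt ℝ (fun s => T⁻¹ * τ s) s := analyticAt_const.mul (hτa s hs)
    have h4 : AnalyticAt ℝ (fun s => Real.log (T⁻¹ * τ s)) s :=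
      AnalyticAt.comp (g := Real.log) (f := fun s => T⁻¹ * τ s) (analyticAt_log (hpos s hs)) h3
    exact (analyticAt_const.mul h4).rexp'
  obtain ⟨Z, hZ⟩ : ∃ Z : ℝ → ℝ → Ph n, Z = fun s => Sc (r s) (Y s) := ⟨_, rfl⟩
  have hZs : ∀ s, Z s = Sc (r s) (Y s) := fun s => by rw [hZ]
  have hZ0 : ∀ s, Z s 0 = Sr (r s) (Y s 0) := by
    intro s
    rw [hZs]
    unfold Sc
    rw [mul_zero]
  have hZs0 : Z s0 = Y s0 := by rw [hZs, hr1, Sc_one]
  have hZsol : ∀ s ∈ Ioo a b, IsSol m Set.univ (Z s) := by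
    intro s hs
    rw [hZs]
    exact Sc_sol (hr0 s) (hY s hs).1
  have hF : Fam m a b T Z d (fun s => pr m (Z s 0)) := by
    refine ⟨fun s hs => ⟨hZsol s hs, (hY s hs).2.2.1, ?_, ?_⟩, fun s hs => ?_⟩
    · rw [hZs]
      exact Sc_per (hY s hs).2.2.2 (hr3 s hs)
    · have := pr_apply (⟨Z s 0, sol_cm (hZsol s hs) 0⟩ : cm m)
      simp only at this
      rw [this]
    · have h3 : AnalyticAt ℝ (fun s => Z s 0) s := by
        have h4 : (fun s => Z s 0) = fun s => (((r s ^ 2)⁻¹ • (Y s 0).1, r s • (Y s 0).2) : Ph n) := by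
          funext s
          rw [hZ0, Sr_apply]
        rw [h4]
        have h5 : AnalyticAt ℝ (fun s => (Y s 0).1) s :=
          ((ContinuousLinearMap.fst ℝ (Fin n → ℂ) (Fin n → ℂ)).analyticAt _).comp (hYa s hs)
        have h6 : AnalyticAt ℝ (fun s => (Y s 0).2) s :=
          ((ContinuousLinearMap.snd ℝ (Fin n → ℂ) (Fin n → ℂ)).analyticAt _).comp (hYa s hs)
        have h7 : AnalyticAt ℝ (fun s => (r s ^ 2)⁻¹) s :=
          AnalyticAt.inv (f := fun s => r s ^ 2) ((hra s hs).pow 2) (pow_ne_zero 2 (hr0 s).ne')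
        exact (h7.smul h5).prod ((hra s hs).smul h6)
      exact ((pr m).analyticAt _).comp h3
  have hEZ : ∀ s, energy m (Z s 0) = r s ^ 2 * energy m (Y s 0) := fun s => by
    rw [hZ0, energy_Sr (hr0 s)]
  have hUZ : Z s0 0 ∈ U := by rw [hZs0]; exact hU0
  have k1 : ∀ s ∈ Ioo a b, d s = d s0 := fun s hs =>
    hF.c_all hn hNEM hAFL hXAN hT hlk hs0 hUZ hs
  refine ⟨k1 s hs, ?_⟩
  have k2 := hF.energy_all hT k1 hs hs0
  rw [← (hF.hY s hs).2.2.2, ← (hF.hY s0 hs0).2.2.2, hEZ, hEZ, hr1] at k2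
  have h5 : energy m (Y s0 0) = r s ^ 2 * energy m (Y s 0) := by linarith
  rw [h5, ← hr3 s hs]
  ring

theorem iso_n (hn : 2 ≤ n) (hm : ∀ a, 0 < m a) {K : ℕ} {U : Set (Ph n)} (hlk : Lk m K U)
    {x : ℝ → Ph n} (hx : IsSol m Set.univ x) (hre : ¬ IsRelEq x) (hxU : x 0 ∈ U)
    {T : ℝ} (hT : 0 < T) {c : ℂ} (hc : ‖c‖ = 1) (hper : ∀ t, x (t + T) = c • x t)
    (hR : ∀ ξ : ℝ → Ph n, IsJac m x ξ → (∀ t, ξ (t + T) = c • ξ t) →
      (∀ t, fderiv ℝ (ang m) (x t) (ξ t) = 0) →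
      ∃ α β : ℝ, ∀ t, ξ t = α • vf m (x t) + β • (Complex.I • x t)) :
    ∃ ε : ℝ, 0 < ε ∧ ∃ y : ℝ → ℝ → Ph n, y (ang m (x 0)) = x ∧
      ContDiffOn ℝ 1 (fun l => y l 0) (Metric.ball (ang m (x 0)) ε) ∧
      ∀ l ∈ Metric.ball (ang m (x 0)) ε, IsSol m Set.univ (y l) ∧
        (∀ t, y l (t + T) = c • y l t) ∧ energy m (y l 0) = energy m (x 0) ∧ ang m (y l 0) = l := by
  obtain ⟨R, δ, hR0, hδ, hRg⟩ := exists_region hx hT hc hper
  obtain ⟨P, hPR, hPδ⟩ := exists_pk m hR0 hδ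
  have hxS : ∀ t, x t ∈ P.S := by
    intro t
    unfold Pk.S
    rw [hPR, hPδ]
    exact hRg t
  obtain ⟨γ, ε, hε, hγx, hγ⟩ := isoL hn hm hlk hx hre hxU hT hc hper hR P hxS
  refine ⟨ε, hε, fun l t => ((P.g t (γ l) : cm m) : Ph n), ?_, ?_, fun l hl => ?_⟩
  · funext t
    exact hγx t
  · intro l hl
    refine ContDiffAt.contDiffWithinAt ?_
    have h3 : (fun l => ((P.g 0 (γ l) : cm m) : Ph n)) = fun l => inc m (γ l) := by
      funext l
      rw [P.hg.zero]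
      rfl
    rw [h3]
    exact (inc m).contDiff.contDiffAt.comp l (hγ l hl).1
  · obtain ⟨d1, d2, d3, d4, d5⟩ := hγ l hl
    refine ⟨P.sol_of d2, ?_, ?_, ?_⟩
    · intro t
      simp only
      rw [P.per_smul hc d3]
      rfl
    · simp only [P.hg.zero]
      exact d4
    · simp only [P.hg.zero]
      exact d5

/-- The rotation of a relative periodic solution is determined by the period. -/
theorem rot_unique (hn : 2 ≤ n) {y : ℝ → Ph n} (hy : IsSol m Set.univ y) {T : ℝ} {c d : ℂ}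
    (hc : ∀ t, y (t + T) = c • y t) (hd : ∀ t, y (t + T) = d • y t) : d = c := by
  have e1 := hd 0
  rw [hc 0] at e1
  obtain ⟨i, hi⟩ := exists_ne_zero hn (hy.mem 0)
  have e2 : c * (y 0).1 i = d * (y 0).1 i := congrArg (fun z : Ph n => z.1 i) e1
  exact (mul_right_cancel₀ hi e2).symm

end Pool.Agent.D0H95.GN
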