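import Pool.Agent.D0H95.GL.Glob2

/-!
Kepler scaling of solutions, Jacobi fields and multiplier pairs.
-/

set_option autoImplicit false

namespace Pool.Agent.D0H95.GL

open Pool.Agent.W821.TB Pool.Agent.D0H95.NB Pool.Agent.D0H95.BF Filter Topology Set

variable {m : Fin 3 → ℝ}

/-- The scaling of phase space. -/
noncomputable def Sr (r : ℝ) : Ph 3 →L[ℝ] Ph 3 :=
  ((r ^ 2)⁻¹ • ContinuousLinearMap.fst ℝ (Fin 3 → ℂ) (Fin 3 → ℂ)).prod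
    (r • ContinuousLinearMap.snd ℝ (Fin 3 → ℂ) (Fin 3 → ℂ))

theorem Sr_apply (r : ℝ) (z : Ph 3) : Sr r z = ((r ^ 2)⁻¹ • z.1, r • z.2) := rfl

theorem Sr_smul (r : ℝ) (c : ℂ) (z : Ph 3) : Sr r (c • z) = c • Sr r z := by
  rw [Sr_apply, Sr_apply]
  refine Prod.ext ?_ ?_
  · change (r ^ 2)⁻¹ • (c • z.1) = c • ((r ^ 2)⁻¹ • z.1)
    rw [smul_comm]
  · change r • (c • z.2) = c • (r • z.2)
    rw [smul_comm]

theorem Sr_inv {r : ℝ} (hr : 0 < r) (z : Ph 3) : Sr r⁻¹ (Sr r z) = z := by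
  rw [Sr_apply, Sr_apply]
  have hr0 := hr.ne'
  refine Prod.ext ?_ ?_
  · change ((r⁻¹) ^ 2)⁻¹ • ((r ^ 2)⁻¹ • z.1) = z.1
    rw [smul_smul, inv_pow, inv_inv, mul_inv_cancel₀ (pow_ne_zero 2 hr0), one_smul]
  · change r⁻¹ • (r • z.2) = z.2
    rw [smul_smul, inv_mul_cancel₀ hr0, one_smul]

theorem Sr_one (z : Ph 3) : Sr 1 z = z := by
  rw [Sr_apply]; simp

theorem vf_Sr {r : ℝ} (hr : 0 < r) (z : Ph 3) : vf m (Sr r z) = r ^ 3 • Sr r (vf m z) := by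
  rw [Sr_apply, vf_scale z hr, Sr_apply]
  have hr0 := hr.ne'
  refine Prod.ext ?_ ?_
  · change r • z.2 = r ^ 3 • ((r ^ 2)⁻¹ • z.2)
    rw [smul_smul]
    congr 1
    field_simp
  · change r ^ 4 • acc m z.1 = r ^ 3 • (r • acc m z.1)
    rw [smul_smul]
    congr 1

theorem Sr_mem {r : ℝ} (hr : 0 < r) {z : Ph 3} (hz : z ∈ phaseSpace m) : Sr r z ∈ phaseSpace m := by
  obtain ⟨h1, h2, h3⟩ := hz
  have hr2 : (r ^ 2)⁻¹ ≠ 0 := by positivity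
  refine ⟨fun a b hab h => h1 a b hab ?_, ?_, ?_⟩
  · have h4 : (r ^ 2)⁻¹ • z.1 a = (r ^ 2)⁻¹ • z.1 b := h
    exact smul_right_injective ℂ hr2 h4
  · have h4 : ∑ a, (m a : ℂ) * (Sr r z).1 a = (r ^ 2)⁻¹ • ∑ a, (m a : ℂ) * z.1 a := by
      rw [Finset.smul_sum]
      refine Finset.sum_congr rfl fun a _ => ?_
      change (m a : ℂ) * ((r ^ 2)⁻¹ • z.1 a) = _
      rw [mul_smul_comm]
    rw [h4, h2, smul_zero]
  · have h4 : ∑ a, (m a : ℂ) * (Sr r z).2 a = r • ∑ a, (m a : ℂ) * z.2 a := by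
      rw [Finset.smul_sum]
      refine Finset.sum_congr rfl fun a _ => ?_
      change (m a : ℂ) * (r • z.2 a) = _
      rw [mul_smul_comm]
    rw [h4, h3, smul_zero]

/-- The scaled curve. -/
noncomputable def Sc (r : ℝ) (x : ℝ → Ph 3) (t : ℝ) : Ph 3 := Sr r (x (r ^ 3 * t))

theorem Sc_inv {r : ℝ} (hr : 0 < r) (x : ℝ → Ph 3) : Sc r⁻¹ (Sc r x) = x := by
  funext t
  unfold Sc
  rw [Sr_inv hr, ← mul_assoc, ← mul_pow, mul_inv_cancel₀ hr.ne', one_pow, one_mul]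

theorem Sc_one (x : ℝ → Ph 3) : Sc 1 x = x := by
  funext t
  unfold Sc
  rw [Sr_one]; simp

theorem Sc_deriv {r : ℝ} {x : ℝ → Ph 3} {v : Ph 3} {t : ℝ} (h : HasDerivAt x v (r ^ 3 * t)) :
    HasDerivAt (Sc r x) (r ^ 3 • Sr r v) t := by
  have h1 : HasDerivAt (fun t : ℝ => r ^ 3 * t) (r ^ 3) t := by
    simpa using (hasDerivAt_id t).const_mul (r ^ 3)
  have h2 := h.scomp t h1
  have h3 := (Sr r).hasFDerivAt.comp_hasDerivAt t h2
  rw [map_smul] at h3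
  exact h3

theorem Sc_sol {r : ℝ} (hr : 0 < r) {x : ℝ → Ph 3} (hx : IsSol m Set.univ x) :
    IsSol m Set.univ (Sc r x) := by
  refine isSol_of (fun t => Sr_mem hr (hx.mem _)) (fun t => ?_)
  have h1 := Sc_deriv (r := r) (hx.hasDerivAt (r ^ 3 * t))
  have h2 : r ^ 3 • Sr r ((x (r ^ 3 * t)).2, acc m (x (r ^ 3 * t)).1) = vf m (Sc r x t) :=
    (vf_Sr hr _).symm
  rw [h2] at h1
  exact h1

theorem Sc_per {r : ℝ} {x : ℝ → Ph 3} {c : ℂ} {τ T : ℝ} (h : ∀ t, x (t + τ) = c • x t)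
    (hT : r ^ 3 * T = τ) (t : ℝ) : Sc r x (t + T) = c • Sc r x t := by
  unfold Sc
  rw [mul_add, hT, h, Sr_smul]

theorem fderiv_Sr {r : ℝ} (hr : 0 < r) {z : Ph 3} (hz : z ∈ phaseSpace m) (v : Ph 3) :
    fderiv ℝ (vf m) (Sr r z) (Sr r v) = r ^ 3 • Sr r (fderiv ℝ (vf m) z v) := by
  have h1 : HasFDerivAt (vf m) (fderiv ℝ (vf m) z) z :=
    ((contDiffAt_vf hz.1).differentiableAt one_ne_zero).hasFDerivAt
  have h2 : HasFDerivAt (vf m) (fderiv ℝ (vf m) (Sr r z)) (Sr r z) :=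
    ((contDiffAt_vf (Sr_mem hr hz).1).differentiableAt one_ne_zero).hasFDerivAt
  have h3 : HasFDerivAt (fun w => vf m (Sr r w)) ((fderiv ℝ (vf m) (Sr r z)).comp (Sr r)) z :=
    h2.comp z (Sr r).hasFDerivAt
  have h4 : HasFDerivAt (fun w => r ^ 3 • Sr r (vf m w))
      (r ^ 3 • (Sr r).comp (fderiv ℝ (vf m) z)) z :=
    ((Sr r).hasFDerivAt.comp z h1).const_smul (r ^ 3)
  have h5 : (fun w => vf m (Sr r w)) = fun w => r ^ 3 • Sr r (vf m w) := funext fun w => vf_Sr hr w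
  rw [h5] at h3
  exact congrArg (fun L : Ph 3 →L[ℝ] Ph 3 => L v) (h3.unique h4)

theorem Sc_jac {r : ℝ} (hr : 0 < r) {x ξ : ℝ → Ph 3} (hx : IsSol m Set.univ x)
    (hξ : IsJac m x ξ) : IsJac m (Sc r x) (Sc r ξ) := by
  intro t
  obtain ⟨⟨h1, h2⟩, h3⟩ := hξ (r ^ 3 * t)
  refine ⟨⟨?_, ?_⟩, ?_⟩
  · have h4 : ∑ a, (m a : ℂ) * (Sc r ξ t).1 a = (r ^ 2)⁻¹ • ∑ a, (m a : ℂ) * (ξ (r ^ 3 * t)).1 a := by
      rw [Finset.smul_sum]
      refine Finset.sum_congr rfl fun a _ => ?_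
      change (m a : ℂ) * ((r ^ 2)⁻¹ • (ξ (r ^ 3 * t)).1 a) = _
      rw [mul_smul_comm]
    rw [h4, h1, smul_zero]
  · have h4 : ∑ a, (m a : ℂ) * (Sc r ξ t).2 a = r • ∑ a, (m a : ℂ) * (ξ (r ^ 3 * t)).2 a := by
      rw [Finset.smul_sum]
      refine Finset.sum_congr rfl fun a _ => ?_
      change (m a : ℂ) * (r • (ξ (r ^ 3 * t)).2 a) = _
      rw [mul_smul_comm]
    rw [h4, h2, smul_zero]
  · have h5 := Sc_deriv (r := r) h3
    have h6 : r ^ 3 • Sr r (fderiv ℝ (vf m) (x (r ^ 3 * t)) (ξ (r ^ 3 * t))) =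
        fderiv ℝ (vf m) (Sc r x t) (Sc r ξ t) := (fderiv_Sr hr (hx.mem _) _).symm
    rw [h6] at h5
    exact h5

theorem Sc_pair {r : ℝ} (hr : 0 < r) {x : ℝ → Ph 3} (hx : IsSol m Set.univ x) {τ T : ℝ}
    (hT : r ^ 3 * T = τ) {c : ℂ} {α : ℝ} (h : Pair m x τ c α) : Pair m (Sc r x) T c α := by
  obtain ⟨ξ, η, h1, h2, h3, h4, h5⟩ := h
  refine ⟨Sc r ξ, Sc r η, Sc_jac hr hx h1, Sc_jac hr hx h2, ?_, ?_, ?_⟩
  · intro h0
    apply h3
    have h6 := congrFun (Sc_inv hr ξ) 0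
    rw [← h6]
    unfold Sc at h0 ⊢
    simp only [mul_zero] at h0 ⊢
    rw [h0, map_zero]
  · intro t
    unfold Sc
    rw [mul_add, hT, h4, Sr_smul, map_sub, map_smul, map_smul]
  · intro t
    unfold Sc
    rw [mul_add, hT, h5, Sr_smul, map_add, map_smul, map_smul]

theorem energy_Sr {r : ℝ} (hr : 0 < r) (z : Ph 3) : energy m (Sr r z) = r ^ 2 * energy m z := by
  unfold energy
  rw [mul_sub]
  congr 1
  · rw [← mul_div_assoc, Finset.mul_sum]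
    congr 1
    refine Finset.sum_congr rfl fun a _ => ?_
    have : (Sr r z).2 a = r • z.2 a := rfl
    rw [this, norm_smul, Real.norm_of_nonneg hr.le]
    ring
  · unfold upot
    rw [← mul_div_assoc, Finset.mul_sum]
    congr 1
    refine Finset.sum_congr rfl fun a _ => ?_
    rw [Finset.mul_sum]
    refine Finset.sum_congr rfl fun b _ => ?_
    have h1 : (Sr r z).1 b - (Sr r z).1 a = (r ^ 2)⁻¹ • (z.1 b - z.1 a) := by
      change (r ^ 2)⁻¹ • z.1 b - (r ^ 2)⁻¹ • z.1 a = _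
      rw [smul_sub]
    rw [h1, norm_smul, Real.norm_of_nonneg (by positivity)]
    have hr0 := hr.ne'
    by_cases hz : ‖z.1 b - z.1 a‖ = 0
    · rw [hz]; simp
    · field_simp

theorem ang_Sr {r : ℝ} (hr : 0 < r) (z : Ph 3) : ang m (Sr r z) = r⁻¹ * ang m z := by
  unfold ang
  rw [Finset.mul_sum]
  refine Finset.sum_congr rfl fun a _ => ?_
  have h1 : (Sr r z).1 a = (r ^ 2)⁻¹ • z.1 a := rfl
  have h2 : (Sr r z).2 a = r • z.2 a := rfl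
  rw [h1, h2, Complex.real_smul, Complex.real_smul, map_mul, Complex.conj_ofReal]
  have h3 : ((((r ^ 2)⁻¹ : ℝ) : ℂ) * (starRingEnd ℂ) (z.1 a)) * (((r : ℝ) : ℂ) * z.2 a) =
      ((r⁻¹ : ℝ) : ℂ) * ((starRingEnd ℂ) (z.1 a) * z.2 a) := by
    have hr' : (r : ℂ) ≠ 0 := by exact_mod_cast hr.ne'
    push_cast
    field_simp
  rw [h3, Complex.im_ofReal_mul]
  ring

end Pool.Agent.D0H95.GL
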