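import Pool.Agent.D0H95.GL.Lk

/-!
Isochronous isospectral families through all relative periodic solutions near a stable one.
-/

set_option autoImplicit false

namespace Pool.Agent.D0H95.GL

open Pool.Agent.W821.TB Pool.Agent.D0H95.NB Pool.Agent.D0H95.BF Finset Filter Topology

variable {m : Fin 3 → ℝ}

/-- **Isochronous isospectral families.** -/
theorem specL (hBU : S_BU) (hNT : S_NT) (hEIG : S_EIG) (hm : ∀ a, 0 < m a) {K : ℕ} {U : Set (Ph 3)}
    (hlk : Lk m K U) {x : ℝ → Ph 3}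
    (hx : IsSol m Set.univ x) (hre : ¬ IsRelEq x) (hxU : x 0 ∈ U)
    {T : ℝ} (hT : 0 < T) {c : ℂ} (hc : ‖c‖ = 1) (hper : ∀ t, x (t + T) = c • x t)
    {α1 α2 : ℝ} (hs1 : Real.sin α1 ≠ 0) (hs2 : Real.sin α2 ≠ 0)
    (hcc : Real.cos α1 ≠ Real.cos α2) (h1 : Pair m x T c α1) (h2 : Pair m x T c α2) :
    ∃ ε : ℝ, 0 < ε ∧ ∃ Y : ℝ → ℝ → Ph 3, Y (ang m (x 0)) = x ∧
      ContDiffOn ℝ 1 (fun l => Y l 0) (Metric.ball (ang m (x 0)) ε) ∧
      ∀ l ∈ Metric.ball (ang m (x 0)) ε, IsSol m Set.univ (Y l) ∧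
        (∀ t, Y l (t + T) = c • Y l t) ∧ energy m (Y l 0) = energy m (x 0) ∧
        ang m (Y l 0) = l ∧ Pair m (Y l) T c α1 ∧ Pair m (Y l) T c α2 := by
  obtain ⟨R, δ, hR0, hδ, hRg⟩ := exists_region hx hT hc hper
  obtain ⟨P, hPR, hPδ⟩ := exists_pk m hR0 hδ
  have hxS : ∀ t, x t ∈ P.S := by
    intro t
    unfold Pk.S
    rw [hPR, hPδ]
    exact hRg t
  obtain ⟨ω, hω⟩ := exists_om m
  set z0 : cm m := ⟨x 0, sol_cm hx 0⟩ with hz0
  have hg : ∀ t, ((P.g t z0 : cm m) : Ph 3) = x t := P.of_sol hx hxS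
  have hgx : (fun t => ((P.g t z0 : cm m) : Ph 3)) = x := funext hg
  have hS0 : ∀ t, ((P.g t z0 : cm m) : Ph 3) ∈ P.S := fun t => by rw [hg]; exact hxS t
  have hgT : P.g T z0 = c • z0 := by
    apply Subtype.ext
    rw [hg]
    have := hper 0
    rw [zero_add] at this
    exact this
  obtain ⟨p1, r1, hn1, hp1, hr1⟩ := pair_vec hm hS0 hT (by rw [hgx]; exact h1)
  obtain ⟨p2, r2, hn2, hp2, hr2⟩ := pair_vec hm hS0 hT (by rw [hgx]; exact h2)
  have hE0 : EP0 P T c z0 p1 r1 p2 r2 α1 α2 :=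
    ⟨hS0, hgT, hp1, hr1, hp2, hr2, hn1, hn2, hs1, hs2, hcc, indep (by norm_num) hm hx hre⟩
  have hE := hE0.toEP hm hT hc
  have hu1 : (((⟨vf m (x 0), vf_mem (sol_cm hx 0)⟩ : cm m)) : Ph 3) = vf m (z0 : Ph 3) := rfl
  set u1 : cm m := ⟨vf m (x 0), vf_mem (sol_cm hx 0)⟩ with hu1def
  have hz0S : (z0 : Ph 3) ∈ P.S := by
    have := hS0 0
    rwa [P.hg.zero] at this
  -- the reduced orbit is nondegenerate
  have hR : ∀ ξ : ℝ → Ph 3, IsJac m x ξ → (∀ t, ξ (t + T) = c • ξ t) →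
      (∀ t, fderiv ℝ (ang m) (x t) (ξ t) = 0) →
      ∃ α β : ℝ, ∀ t, ξ t = α • vf m (x t) + β • (Complex.I • x t) := by
    intro ξ hξ hξp hξa
    set v : cm m := ⟨ξ 0, (hξ 0).1⟩ with hv
    have hjv : ∀ t, 0 ≤ t → ξ t = ((fderiv ℝ (P.g t) z0 v : cm m) : Ph 3) := by
      intro t ht
      refine jac_uniq hm P hS0 (fun t => (hξ t).1) (fun t => ?_) rfl ht
      rw [hg]
      exact (hξ t).2
    have hDv : fderiv ℝ (P.g T) z0 v = c • v := by
      apply Subtype.ext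
      rw [← hjv T hT.le]
      have := hξp 0
      rw [zero_add] at this
      exact this
    obtain ⟨o1, o2, o3, o4⟩ := hE0.orth hT hc hω hDv
    have hanti : ∀ x y : cm m, ome m (x : Ph 3) (y : Ph 3) = - ome m (y : Ph 3) (x : Ph 3) :=
      fun x y => ome_anti _ _
    rw [hω] at o1 o2 o3 o4
    obtain ⟨a, b, hab⟩ := hE.perp hm hT hc hu1 (v := v) (by
        rw [hu1]
        exact dE_zero P hS0 hT hc hgT hDv)
      (by
        have := hξa 0
        rw [fderiv_ang] at this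
        exact this)
      (by rw [hanti, o1, neg_zero]) (by rw [hanti, o2, neg_zero]) (by rw [hanti, o3, neg_zero])
      (by rw [hanti, o4, neg_zero])
    have hpos : ∀ t, 0 ≤ t → ξ t = a • vf m (x t) + b • (Complex.I • x t) := by
      intro t ht
      rw [hjv t ht, hab, map_add, map_smul, map_smul, D_I]
      have e1 := D_vf P hz0S (hS0 t) hu1
      rw [← hg t, ← e1]
      rfl
    refine ⟨a, b, fun t => ?_⟩
    obtain ⟨k, hk⟩ := exists_nat_gt (-t / T)
    have hk' : 0 ≤ t + k * T := by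
      rw [div_lt_iff₀ hT] at hk
      linarith
    have e1 := hpos _ hk'
    rw [iter_smul hper k t, iter_smul hξp k t, vf_smul (by rw [norm_pow, hc, one_pow])] at e1
    have hck : c ^ k ≠ 0 := by
      intro h
      have : ‖c ^ k‖ = 1 := by rw [norm_pow, hc, one_pow]
      rw [h] at this
      simp at this
    have e2 := congrArg (fun w => (c ^ k)⁻¹ • w) e1
    simp only [smul_add, smul_smul, inv_mul_cancel₀ hck, one_smul] at e2
    rw [e2]
    congr 1
    · rw [smul_comm, smul_smul, inv_mul_cancel₀ hck, one_smul]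
    · rw [smul_comm, smul_smul, mul_comm Complex.I, ← mul_assoc, inv_mul_cancel₀ hck, one_mul]
  obtain ⟨γ, ε, hε, hγx, hγ⟩ := isoL (by norm_num) hm hlk hx hre hxU hT hc hper hR P hxS
  set l0 := ang m (x 0) with hl0
  have hball : ∀ᶠ l in 𝓝 l0, l ∈ Metric.ball l0 ε := Metric.ball_mem_nhds l0 hε
  have hγ0 : γ l0 = z0 := by
    apply Subtype.ext
    have := hγx 0
    rwa [P.hg.zero] at this
  have hγc := (hγ l0 (Metric.mem_ball_self hε)).1
  -- the angular momentum is the parameter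
  have hL : ome m (Complex.I • (γ l0 : Ph 3)) ((deriv γ l0 : cm m) : Ph 3) = 1 := by
    have hd1 : HasDerivAt γ (deriv γ l0) l0 := (hγc.differentiableAt one_ne_zero).hasDerivAt
    have hd2 : HasDerivAt (fun l => ((γ l : cm m) : Ph 3)) ((deriv γ l0 : cm m) : Ph 3) l0 :=
      (inc m).hasFDerivAt.comp_hasDerivAt l0 hd1
    have hd3 : HasFDerivAt (ang m) (fderiv ℝ (ang m) (γ l0 : Ph 3))
        ((fun l => ((γ l : cm m) : Ph 3)) l0) :=
      (contDiff_ang.differentiable one_ne_zero _).hasFDerivAt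
    have hd4 := hd3.comp_hasDerivAt l0 hd2
    rw [fderiv_ang] at hd4
    have hd5 : HasDerivAt (fun l : ℝ => l) 1 l0 := hasDerivAt_id l0
    have hd6 : (ang m ∘ fun l => ((γ l : cm m) : Ph 3)) =ᶠ[𝓝 l0] fun l => l := by
      filter_upwards [hball] with l hl
      exact (hγ l hl).2.2.2.2
    exact (hd4.congr_of_eventuallyEq hd6.symm).unique hd5
  have hSev : ∀ᶠ l in 𝓝 l0, ∀ t, ((P.g t (γ l) : cm m) : Ph 3) ∈ P.S :=
    hball.mono fun l hl => (hγ l hl).2.1
  obtain ⟨P1, R1, A1, a1, a2, a3, a4, a5, a6, a7⟩ := eig_cont hEIG hm (N := 1) le_rfl hT hc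
    (γ := γ) (l0 := l0) (by exact_mod_cast hγc) hSev (by rw [hγ0]; exact hE)
  obtain ⟨P2, R2, A2, b1, b2, b3, b4, b5, b6, b7⟩ := eig_cont hEIG hm (N := 1) le_rfl hT hc
    (γ := γ) (l0 := l0) (by exact_mod_cast hγc) hSev (by rw [hγ0]; exact hE.swap)
  have hcore := coreL hBU hNT hm hlk hx (indep (by norm_num) hm hx hre) hxU (P := P) hT hc (γ := γ) (p1 := P1) (r1 := R1)
    (p2 := P2) (r2 := R2) (α1 := A1) (α2 := A2) (l0 := l0) (by rw [hγ0]; exact hg)
    (by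
      filter_upwards [hball] with l hl
      exact ⟨(hγ l hl).1, (hγ l hl).2.1, (hγ l hl).2.2.1⟩)
    (by rw [hL]; exact one_ne_zero) (by exact_mod_cast a4) (by exact_mod_cast a5)
    (by exact_mod_cast a6) (by exact_mod_cast b4) (by exact_mod_cast b5) (by exact_mod_cast b6)
    a7 b7 (by rw [a1, a2]; exact hE.hω1) (by rw [b1, b2]; exact hE.hω2) (by rw [a3]; exact hs1)
    (by rw [b3]; exact hs2) (by rw [a3, b3]; exact hcc)
  have hn1' : ∀ᶠ l in 𝓝 l0, P1 l ≠ 0 := a4.continuousAt.eventually_ne (by rw [a1]; exact hn1)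
  have hn2' : ∀ᶠ l in 𝓝 l0, P2 l ≠ 0 := b4.continuousAt.eventually_ne (by rw [b1]; exact hn2)
  obtain ⟨ε', hε', hb'⟩ := Metric.eventually_nhds_iff_ball.mp
    (hcore.and (hn1'.and (hn2'.and (a7.and (b7.and hball)))))
  refine ⟨ε', hε', fun l t => ((P.g t (γ l) : cm m) : Ph 3), ?_, ?_, fun l hl => ?_⟩
  · funext t
    exact hγx t
  · intro l hl
    refine ContDiffAt.contDiffWithinAt ?_
    have h3 : (fun l => ((P.g 0 (γ l) : cm m) : Ph 3)) = fun l => inc m (γ l) := by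
      funext l
      rw [P.hg.zero]
      rfl
    rw [h3]
    exact (inc m).contDiff.contDiffAt.comp l (hγ l (hb' l hl).2.2.2.2.2).1
  · obtain ⟨⟨c1, c2⟩, c3, c4, c5, c6, c7⟩ := hb' l hl
    obtain ⟨d1, d2, d3, d4, d5⟩ := hγ l c7
    rw [a3] at c1
    rw [b3] at c2
    rw [c1] at c5
    rw [c2] at c6
    refine ⟨P.sol_of d2, ?_, ?_, ?_, vec_pair d2 hc d3 c3 c5.1 c5.2,
      vec_pair d2 hc d3 c4 c6.1 c6.2⟩
    · intro t
      simp only
      rw [P.per_smul hc d3]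
      rfl
    · simp only [P.hg.zero]
      exact d4
    · simp only [P.hg.zero]
      exact d5

end Pool.Agent.D0H95.GL
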